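import Mathlib
import Pool.Agent.Work.MP_44129c_co.Defs

/-!
# MP_44129c_co/MF, module Basic (definitions FIXED, helper8)

`MFs N s`: there is a symmetric 2-colouring of the pairs of `N` points such that for every pair
`x ≠ y` at least `s` points `z` have both `xz` and `yz` of the other colour.
-/

set_option autoImplicit false

namespace ZS44129

open Finset

/-- the vertices `z` with `xz` and `yz` both of a colour different from the colour of `xy`. -/
def opp {V : Type} [Fintype V] [DecidableEq V] (b : V → V → Bool) (x y : V) : Finset V :=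
  univ.filter (fun z => z ≠ x ∧ z ≠ y ∧ b x z ≠ b x y ∧ b y z ≠ b x y)

/-- `MFs N s`. -/
def MFs (N s : ℕ) : Prop :=
  ∃ b : Fin N → Fin N → Bool, (∀ x y, b x y = b y x) ∧ ∀ x y, x ≠ y → s ≤ (opp b x y).card

/-- the same on any finite type. -/
theorem mfs_of_type {V : Type} [Fintype V] [DecidableEq V] {N s : ℕ} (hV : Fintype.card V = N)
    (b : V → V → Bool) (hb : ∀ x y, b x y = b y x) (h : ∀ x y, x ≠ y → s ≤ (opp b x y).card) :
    MFs N s := by
  classical
  let e : Fin N ≃ V := (Fintype.equivFinOfCardEq hV).symm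
  refine ⟨fun x y => b (e x) (e y), fun x y => hb _ _, fun x y hxy => ?_⟩
  have h1 := h (e x) (e y) (fun h' => hxy (e.injective h'))
  refine h1.trans (le_of_eq ?_)
  rw [← Finset.card_map e.toEmbedding]
  congr 1
  ext z
  simp only [opp, mem_map, mem_filter, mem_univ, true_and, Equiv.coe_toEmbedding]
  constructor
  · intro hz
    refine ⟨e.symm z, ?_, by simp⟩
    simp only [Equiv.apply_symm_apply]
    refine ⟨?_, ?_, hz.2.2.1, hz.2.2.2⟩
    · intro h'; apply hz.1; rw [← h']; simp
    · intro h'; apply hz.2.1; rw [← h']; simp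
  · rintro ⟨w, hw, rfl⟩
    refine ⟨fun h' => hw.1 (e.injective h'), fun h' => hw.2.1 (e.injective h'), hw.2.2.1, hw.2.2.2⟩

theorem mfs_mono {N s s' : ℕ} (h : MFs N s) (hs : s' ≤ s) : MFs N s' := by
  obtain ⟨b, hb, h⟩ := h
  exact ⟨b, hb, fun x y hxy => hs.trans (h x y hxy)⟩

theorem mfs_zero (N : ℕ) : MFs N 0 :=
  ⟨fun _ _ => true, fun _ _ => rfl, fun _ _ _ => Nat.zero_le _⟩

/-- the bridge: `MFs (m + s) s` gives a colouring without monochromatic `m`-edge double star. -/
theorem mf_of_mfs {N m s : ℕ} (hN : m + s = N) (h : MFs N s) :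
    ∃ b : Fin N → Fin N → Bool, (∀ x y, b x y = b y x) ∧ MF m b := by
  classical
  obtain ⟨b, hb, h⟩ := h
  refine ⟨b, hb, ?_⟩
  intro u v huv X Y hXY huX hvX huY hvY hcard hmono
  obtain ⟨hX, hY⟩ := hmono
  have h1 := h u v huv
  have hdis : Disjoint (X ∪ Y) (opp b u v) := by
    rw [Finset.disjoint_left]
    intro z hz hz'
    simp only [opp, mem_filter, mem_univ, true_and] at hz'
    rcases Finset.mem_union.1 hz with h2 | h2
    · exact hz'.2.2.1 (hX z h2)
    · exact hz'.2.2.2 (hY z h2)
  have hsub : (X ∪ Y) ∪ opp b u v ⊆ (univ.erase u).erase v := by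
    intro z hz
    rw [Finset.mem_erase, Finset.mem_erase]
    rcases Finset.mem_union.1 hz with h2 | h2
    · rcases Finset.mem_union.1 h2 with h3 | h3
      · exact ⟨fun h' => hvX (h' ▸ h3), fun h' => huX (h' ▸ h3), mem_univ _⟩
      · exact ⟨fun h' => hvY (h' ▸ h3), fun h' => huY (h' ▸ h3), mem_univ _⟩
    · simp only [opp, mem_filter, mem_univ, true_and] at h2
      exact ⟨h2.2.1, h2.1, mem_univ _⟩
  have hc := Finset.card_le_card hsub
  rw [Finset.card_union_of_disjoint hdis, Finset.card_union_of_disjoint hXY,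
    Finset.card_erase_of_mem (by simp [Ne.symm huv]), Finset.card_erase_of_mem (mem_univ _),
    Finset.card_univ, Fintype.card_fin] at hc
  omega

end ZS44129
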