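import Mathlib
import Pool.Agent.Work.MP_44129c_co.MF.Basic

/-!
# MP_44129c_co/MF, module Blow (size S-M)

Proof.  Let `b` witness `MFs N s` on `Fin N`.  Work on the type `Fin a × Fin N` (cardinality
`a * N`) and use `mfs_of_type`.  As `2 ≤ N` choose for every `x : Fin N` some `o x ≠ x`
(e.g. `0` if `x ≠ 0` and `1` otherwise).  Put
`b' (i, x) (j, y) = b x y` if `x ≠ y`, and `b' (i, x) (j, x) = b x (o x)`.  Symmetric.
Let `(i, x) ≠ (j, y)`.
* `x ≠ y`: `univ ×ˢ opp b x y ⊆ opp b' (i, x) (j, y)` (for `(k, z)` with `z ∈ opp b x y` one has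
  `z ≠ x, y`), and `(univ ×ˢ opp b x y).card = a * (opp b x y).card ≥ a * s`.
* `x = y`: `univ ×ˢ opp b x (o x) ⊆ opp b' (i, x) (j, x)`: for `z ∈ opp b x (o x)` one has `z ≠ x`,
  `b' (i, x) (k, z) = b x z ≠ b x (o x) = b' (i, x) (j, x)`, same for `(j, x)`.
-/

set_option autoImplicit false

namespace ZS44129

open Finset

theorem mfs_blow {N s : ℕ} (a : ℕ) (hN : 2 ≤ N) (h : MFs N s) : MFs (a * N) (a * s) := by
  classical
  obtain ⟨b, hb, h⟩ := h
  have ho : ∀ x : Fin N, ∃ y : Fin N, y ≠ x := by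
    have : Nontrivial (Fin N) := Fin.nontrivial_iff_two_le.2 hN
    exact fun x => exists_ne x
  choose o ho using ho
  let b' : Fin a × Fin N → Fin a × Fin N → Bool :=
    fun p r => if p.2 = r.2 then b p.2 (o p.2) else b p.2 r.2
  have b'1 : ∀ i j x, b' (i, x) (j, x) = b x (o x) := fun i j x => if_pos rfl
  have b'2 : ∀ i j x y, x ≠ y → b' (i, x) (j, y) = b x y := fun i j x y hxy => if_neg hxy
  refine mfs_of_type (V := Fin a × Fin N) (by simp) b' ?_ ?_
  · rintro ⟨i, x⟩ ⟨j, y⟩
    by_cases hxy : x = y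
    · subst hxy
      rfl
    · rw [b'2 i j x y hxy, b'2 j i y x (Ne.symm hxy)]
      exact hb _ _
  · rintro ⟨i, x⟩ ⟨j, y⟩ _
    by_cases hxy : x = y
    · subst hxy
      have hsub : (univ : Finset (Fin a)) ×ˢ opp b x (o x) ⊆ opp b' (i, x) (j, x) := by
        rintro ⟨k, z⟩ hz
        simp only [mem_product, mem_univ, true_and, opp, mem_filter] at hz ⊢
        obtain ⟨h1, _, h3, _⟩ := hz
        refine ⟨?_, ?_, ?_, ?_⟩
        · intro h'
          exact h1 (congrArg Prod.snd h')
        · intro h'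
          exact h1 (congrArg Prod.snd h')
        · rw [b'1, b'2 _ _ _ _ (Ne.symm h1)]
          exact h3
        · rw [b'1, b'2 _ _ _ _ (Ne.symm h1)]
          exact h3
      have hc := card_le_card hsub
      rw [card_product, card_univ, Fintype.card_fin] at hc
      exact (Nat.mul_le_mul_left a (h x (o x) (Ne.symm (ho x)))).trans hc
    · have hsub : (univ : Finset (Fin a)) ×ˢ opp b x y ⊆ opp b' (i, x) (j, y) := by
        rintro ⟨k, z⟩ hz
        simp only [mem_product, mem_univ, true_and, opp, mem_filter] at hz ⊢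
        obtain ⟨h1, h2, h3, h4⟩ := hz
        refine ⟨?_, ?_, ?_, ?_⟩
        · intro h'
          exact h1 (congrArg Prod.snd h')
        · intro h'
          exact h2 (congrArg Prod.snd h')
        · rw [b'2 _ _ _ _ hxy, b'2 _ _ _ _ (Ne.symm h1)]
          exact h3
        · rw [b'2 _ _ _ _ hxy, b'2 _ _ _ _ (Ne.symm h2)]
          exact h4
      have hc := card_le_card hsub
      rw [card_product, card_univ, Fintype.card_fin] at hc
      exact (Nat.mul_le_mul_left a (h x y hxy)).trans hc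

end ZS44129
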