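import Mathlib
import Pool.Agent.Work.MP_44129c_co.MF.Basic

/-!
# MP_44129c_co/MF, module Del (size S)

Proof.  Let `b` witness `MFs (N + 1) (s + 1)`.  Put `b' x y = b (x.castSucc) (y.castSucc)` on
`Fin N`.  For `x ≠ y` the set `opp b x.castSucc y.castSucc` has at least `s + 1` elements; all of
them except possibly `Fin.last N` are of the form `z.castSucc` with `z ∈ opp b' x y`.  So
`opp b x.castSucc y.castSucc ⊆ insert (Fin.last N) ((opp b' x y).map Fin.castSuccEmb)` and
`s + 1 ≤ 1 + (opp b' x y).card`.
-/

set_option autoImplicit false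

namespace ZS44129

open Finset

theorem mfs_del {N s : ℕ} (h : MFs (N + 1) (s + 1)) : MFs N s := by
  classical
  obtain ⟨b, hb, h⟩ := h
  refine ⟨fun x y => b x.castSucc y.castSucc, fun x y => hb _ _, fun x y hxy => ?_⟩
  have h1 := h x.castSucc y.castSucc (fun h' => hxy (Fin.castSucc_injective N h'))
  have hsub : opp b x.castSucc y.castSucc ⊆ insert (Fin.last N)
      ((opp (fun x y : Fin N => b x.castSucc y.castSucc) x y).map Fin.castSuccEmb) := by
    intro z hz
    simp only [opp, mem_filter, mem_univ, true_and] at hz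
    rw [Finset.mem_insert]
    rcases Fin.eq_castSucc_or_eq_last z with ⟨w, rfl⟩ | hw
    · right
      rw [Finset.mem_map]
      refine ⟨w, ?_, rfl⟩
      simp only [opp, mem_filter, mem_univ, true_and]
      exact ⟨fun h' => hz.1 (by rw [h']), fun h' => hz.2.1 (by rw [h']), hz.2.2.1, hz.2.2.2⟩
    · exact Or.inl hw
  have hc := (Finset.card_le_card hsub).trans (Finset.card_insert_le _ _)
  rw [Finset.card_map] at hc
  omega

end ZS44129
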