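import Mathlib

/-!
# MP_44129c_co/MF, module Char (size M): quadratic residue pairs

`χ = quadraticChar (ZMod q)` (values in `ℤ`).
(1) `charSum`: for `d ≠ 0`, `∑ u, χ u * χ (u + d) = -1`.
  Proof.  The term `u = 0` is `0`.  For `u ≠ 0`, `χ u * χ (u + d) = χ u * χ u * χ (1 + d * u⁻¹) =
  χ (1 + d * u⁻¹)` since `χ u ^ 2 = 1`.  The map `u ↦ 1 + d * u⁻¹` is a bijection from the nonzero
  `u` to the `w ≠ 1` (inverse `w ↦ d * (w - 1)⁻¹`).  `∑_{w ≠ 1} χ w = 0 - χ 1 = -1`
  (`quadraticChar_sum_zero`).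
(2) `charCount`: for `d ≠ 0` and `ε = 1` or `ε = -1`,
  `4 * #{u | χ u = ε ∧ χ (u + d) = ε} = q - 3 - ε * (χ d + χ (-d))`.
  Proof.  For every `u` with `u ≠ 0`, `u ≠ -d` the number `(1 + ε χ u)(1 + ε χ (u + d))` is `4` if
  `χ u = χ (u + d) = ε` and `0` otherwise; for `u = 0` it is `1 + ε χ d`, for `u = -d` it is
  `1 + ε χ (-d)`, and these two `u` are not in the set.  (`0 ≠ -d`.)  Sum over all `u`:
  `∑ (1 + ε χ u)(1 + ε χ (u + d)) = q + ε * 0 + ε * 0 + (-1)` by (1) and `ε ^ 2 = 1`, so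
  `4 * # + (1 + ε χ d) + (1 + ε χ (-d)) = q - 1`.
-/

set_option autoImplicit false

namespace ZS44129

open Finset

theorem charSum {q : ℕ} [Fact q.Prime] (hq : q ≠ 2) {d : ZMod q} (hd : d ≠ 0) :
    ∑ u : ZMod q, quadraticChar (ZMod q) u * quadraticChar (ZMod q) (u + d) = -1 := by
  have h0 : ∑ w : ZMod q, quadraticChar (ZMod q) w = 0 :=
    quadraticChar_sum_zero (by rw [ZMod.ringChar_zmod_n]; exact hq)
  let e : ZMod q ≃ ZMod q :=
    (Equiv.inv (ZMod q)).trans ((Equiv.mulLeft₀ d hd).trans (Equiv.addLeft 1))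
  have h1 : ∑ u : ZMod q, quadraticChar (ZMod q) (1 + d * u⁻¹) = 0 := by
    rw [← h0]
    exact Equiv.sum_comp e (fun w => quadraticChar (ZMod q) w)
  have h2 : ∀ u : ZMod q, quadraticChar (ZMod q) u * quadraticChar (ZMod q) (u + d) =
      quadraticChar (ZMod q) (1 + d * u⁻¹) - if u = 0 then 1 else 0 := by
    intro u
    by_cases hu : u = 0
    · subst hu
      simp
    · rw [if_neg hu, sub_zero]
      have h3 : u + d = u * (1 + d * u⁻¹) := by
        field_simp
      rw [h3, map_mul, ← mul_assoc, ← sq, quadraticChar_sq_one hu, one_mul]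
  rw [Finset.sum_congr rfl fun u _ => h2 u, Finset.sum_sub_distrib, h1]
  simp

theorem charCount {q : ℕ} [Fact q.Prime] (hq : q ≠ 2) {d : ZMod q} (hd : d ≠ 0) (ε : ℤ)
    (hε : ε = 1 ∨ ε = -1) :
    4 * ((univ.filter (fun u : ZMod q => quadraticChar (ZMod q) u = ε ∧
      quadraticChar (ZMod q) (u + d) = ε)).card : ℤ) =
      q - 3 - ε * (quadraticChar (ZMod q) d + quadraticChar (ZMod q) (-d)) := by
  have h0 : ∑ w : ZMod q, quadraticChar (ZMod q) w = 0 :=
    quadraticChar_sum_zero (by rw [ZMod.ringChar_zmod_n]; exact hq)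
  have h0' : ∑ w : ZMod q, quadraticChar (ZMod q) (w + d) = 0 := by
    rw [← h0]
    exact Equiv.sum_comp (Equiv.addRight d) (fun w => quadraticChar (ZMod q) w)
  have hεne : (0 : ℤ) ≠ ε := by rcases hε with h | h <;> rw [h] <;> norm_num
  have hε2 : ε * ε = 1 := by rcases hε with h | h <;> rw [h] <;> norm_num
  have key : ∀ u : ZMod q,
      4 * (if quadraticChar (ZMod q) u = ε ∧ quadraticChar (ZMod q) (u + d) = ε then (1 : ℤ) else 0) =
        (1 + ε * quadraticChar (ZMod q) u) * (1 + ε * quadraticChar (ZMod q) (u + d))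
          - (if u = 0 then 1 + ε * quadraticChar (ZMod q) d else 0)
          - (if u = -d then 1 + ε * quadraticChar (ZMod q) (-d) else 0) := by
    intro u
    by_cases hu : u = 0
    · subst hu
      have h1 : ¬ ((0 : ZMod q) = -d) := by
        intro h
        exact hd (neg_eq_zero.1 h.symm)
      rw [if_neg h1, if_pos rfl, quadraticChar_zero, zero_add, if_neg (fun h => hεne h.1)]
      ring
    · by_cases hu2 : u = -d
      · subst hu2
        have h1 : -d + d = 0 := by ring
        rw [if_neg hu, if_pos rfl, h1, quadraticChar_zero, if_neg (fun h => hεne h.2)]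
        ring
      · rw [if_neg hu, if_neg hu2]
        have h1 : u + d ≠ 0 := fun h => hu2 (eq_neg_of_add_eq_zero_left h)
        rcases quadraticChar_dichotomy hu with h2 | h2 <;>
        rcases quadraticChar_dichotomy h1 with h3 | h3 <;>
        rcases hε with h4 | h4 <;>
        rw [h2, h3, h4] <;> norm_num
  have h5 : (4 : ℤ) * ((univ.filter (fun u : ZMod q => quadraticChar (ZMod q) u = ε ∧
      quadraticChar (ZMod q) (u + d) = ε)).card : ℤ) = ∑ u : ZMod q,
      4 * (if quadraticChar (ZMod q) u = ε ∧ quadraticChar (ZMod q) (u + d) = ε then (1 : ℤ) else 0) := by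
    rw [← Finset.mul_sum, Finset.sum_boole]
  rw [h5, Finset.sum_congr rfl fun u _ => key u, Finset.sum_sub_distrib, Finset.sum_sub_distrib,
    Finset.sum_ite_eq', Finset.sum_ite_eq', if_pos (mem_univ _), if_pos (mem_univ _)]
  have h6 : ∑ u : ZMod q, (1 + ε * quadraticChar (ZMod q) u) * (1 + ε * quadraticChar (ZMod q) (u + d)) =
      q - 1 := by
    have h7 : ∀ u : ZMod q,
        (1 + ε * quadraticChar (ZMod q) u) * (1 + ε * quadraticChar (ZMod q) (u + d)) =
        1 + ε * quadraticChar (ZMod q) u + ε * quadraticChar (ZMod q) (u + d) +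
          ε * ε * (quadraticChar (ZMod q) u * quadraticChar (ZMod q) (u + d)) := by
      intro u
      ring
    rw [Finset.sum_congr rfl fun u _ => h7 u, Finset.sum_add_distrib, Finset.sum_add_distrib,
      Finset.sum_add_distrib, ← Finset.mul_sum, ← Finset.mul_sum, ← Finset.mul_sum, h0, h0',
      charSum hq hd, hε2]
    simp [ZMod.card]
    ring
  rw [h6]
  ring

end ZS44129
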