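import Mathlib
import Pool.Agent.Work.MP_44129c_co.MF.Basic
import Pool.Agent.Work.MP_44129c_co.MF.Char

/-!
# MP_44129c_co/MF, module PalP (size S-M): Paley, q = 1 mod 4 prime

Proof.  `χ = quadraticChar (ZMod q)`, `χ (-1) = 1` as `q = 1` mod 4 (`ZMod.exists_sq_eq_neg_one_iff`
or `quadraticChar_neg_one`), so `χ (-a) = χ a`.  On the type `ZMod q` (`mfs_of_type`) put
`b x y = decide (χ (x - y) = 1)`: symmetric.  Let `x ≠ y`, `ε = -χ (x - y)` (so `ε = 1` or `-1`),
`d = y - x`.  For every `u` with `χ u = ε` and `χ (u + d) = ε` the vertex `z = y + ... `: take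
`z = x - u`, i.e. `x - z = u` and `y - z = u + d`.  Then `z ≠ x` (`u ≠ 0`), `z ≠ y` (`u + d ≠ 0`) and
`b x z = decide (ε = 1) ≠ decide (χ (x - y) = 1)`, same for `y`.  The map `u ↦ x - u` is injective, so
`opp b x y` has at least as many elements as the set of `charCount`, and
`4 * # = q - 3 - ε * (χ d + χ (-d)) = q - 3 - 2 * ε * χ (x - y) = q - 3 + 2 = q - 1`.
-/

set_option autoImplicit false

namespace ZS44129

open Finset

theorem mfs_paley {q : ℕ} (hp : q.Prime) (h4 : q % 4 = 1) : MFs q ((q - 1) / 4) := by
  have := Fact.mk hp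
  have hq2 : q ≠ 2 := by omega
  have hneg1 : quadraticChar (ZMod q) (-1) = 1 := by
    rw [quadraticChar_one_iff_isSquare (neg_ne_zero.2 one_ne_zero)]
    exact ZMod.exists_sq_eq_neg_one_iff.2 (by omega)
  have hneg : ∀ a : ZMod q, quadraticChar (ZMod q) (-a) = quadraticChar (ZMod q) a := by
    intro a
    rw [← neg_one_mul, map_mul, hneg1, one_mul]
  refine mfs_of_type (ZMod.card q)
    (fun x y : ZMod q => decide (quadraticChar (ZMod q) (x - y) = 1)) ?_ ?_
  · intro x y
    rw [← neg_sub y x, hneg]
  · intro x y hxy
    have hxy' : x - y ≠ 0 := sub_ne_zero.2 hxy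
    have hd : y - x ≠ 0 := sub_ne_zero.2 (Ne.symm hxy)
    have hdic := quadraticChar_dichotomy hxy'
    have hyx : quadraticChar (ZMod q) (y - x) = quadraticChar (ZMod q) (x - y) := by
      rw [← neg_sub x y, hneg]
    obtain ⟨ε, hεd⟩ : ∃ ε : ℤ, ε = - quadraticChar (ZMod q) (x - y) := ⟨_, rfl⟩
    have hε : ε = 1 ∨ ε = -1 := by
      rcases hdic with h | h
      · right; rw [hεd, h]
      · left; rw [hεd, h]; norm_num
    have hcount := charCount hq2 hd ε hε
    rw [hneg, hyx] at hcount
    have hsq : ε * (quadraticChar (ZMod q) (x - y) + quadraticChar (ZMod q) (x - y)) = -2 := by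
      rcases hdic with h | h <;> rw [hεd, h] <;> norm_num
    rw [hsq] at hcount
    have hle : (univ.filter (fun u : ZMod q => quadraticChar (ZMod q) u = ε ∧
        quadraticChar (ZMod q) (u + (y - x)) = ε)).card ≤
        (opp (fun x y : ZMod q => decide (quadraticChar (ZMod q) (x - y) = 1)) x y).card := by
      refine Finset.card_le_card_of_injOn (fun u => x - u) ?_ ?_
      · intro u hu
        rw [mem_coe, mem_filter] at hu
        obtain ⟨-, hu1, hu2⟩ := hu
        have e1 : x - (x - u) = u := by ring
        have e2 : y - (x - u) = u + (y - x) := by ring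
        have hu0 : u ≠ 0 := by
          rintro rfl
          rw [MulChar.map_zero] at hu1
          omega
        have hu0' : u + (y - x) ≠ 0 := by
          intro h
          rw [h, MulChar.map_zero] at hu2
          omega
        rw [mem_coe, opp, mem_filter]
        refine ⟨mem_univ _, ?_, ?_, ?_, ?_⟩
        · intro h
          have h' : x - u = x := h
          apply hu0
          rw [← e1, h', sub_self]
        · intro h
          have h' : x - u = y := h
          apply hu0'
          rw [← e2, h', sub_self]
        · intro h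
          have h' : decide (quadraticChar (ZMod q) (x - (x - u)) = 1) =
            decide (quadraticChar (ZMod q) (x - y) = 1) := h
          rw [e1, hu1, decide_eq_decide] at h'
          omega
        · intro h
          have h' : decide (quadraticChar (ZMod q) (y - (x - u)) = 1) =
            decide (quadraticChar (ZMod q) (x - y) = 1) := h
          rw [e2, hu2, decide_eq_decide] at h'
          omega
      · intro u _ v _ h
        exact sub_right_injective h
    have h1 : 0 < q := hp.pos
    omega

end ZS44129
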