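import Mathlib
import Pool.Agent.Work.MP_44129c_co.MF.Basic
import Pool.Agent.Work.MP_44129c_co.MF.Char

/-!
# MP_44129c_co/MF, module PalQ (size S-M): sum Paley, q = 3 mod 4 prime

Proof.  `χ = quadraticChar (ZMod q)`, `χ (-1) = -1`, so `χ (-a) = -χ a`.  On the type `ZMod q`
(`mfs_of_type`) put `b x y = decide (χ (x + y) = 1)`: symmetric.  (So pairs `x, -x` get `false`.)
Let `x ≠ y`, `d = y - x ≠ 0`, and `ε = -1` if `χ (x + y) = 1`, `ε = 1` otherwise.  For every `u` with
`χ u = ε`, `χ (u + d) = ε` take `z = u - x`, so `x + z = u`, `y + z = u + d`.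
Then `b x z = b y z = decide (ε = 1) ≠ b x y`.  `z ≠ x`: otherwise `u + d = y + x`, so
`χ (x + y) = ε`, impossible (`ε = -1` means `χ (x + y) = 1`; `ε = 1` means `χ (x + y) ≠ 1`).
`z ≠ y`: otherwise `u = x + y`, the same.  The map `u ↦ u - x` is injective, so by `charCount`
`4 * (opp b x y).card ≥ q - 3 - ε * (χ d + χ (-d)) = q - 3`.
-/

set_option autoImplicit false

namespace ZS44129

open Finset

theorem mfs_sumPaley {q : ℕ} (hp : q.Prime) (h4 : q % 4 = 3) : MFs q ((q - 3) / 4) := by
  classical
  have : Fact q.Prime := ⟨hp⟩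
  have hq2 : q ≠ 2 := by
    rintro rfl
    omega
  have hneg1 : quadraticChar (ZMod q) (-1) = -1 := by
    rw [quadraticChar_neg_one (by rw [ZMod.ringChar_zmod_n]; exact hq2), ZMod.card,
      ZMod.χ₄_nat_three_mod_four h4]
  have hneg : ∀ a : ZMod q, quadraticChar (ZMod q) (-a) = - quadraticChar (ZMod q) a := by
    intro a
    rw [← neg_one_mul a, map_mul, hneg1, neg_one_mul]
  refine mfs_of_type (V := ZMod q) (ZMod.card q)
    (fun x y => decide (quadraticChar (ZMod q) (x + y) = 1)) ?_ ?_
  · intro x y
    simp only [add_comm]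
  · intro x y hxy
    have hd : y - x ≠ 0 := sub_ne_zero.2 hxy.symm
    obtain ⟨ε, hε, hεn, hεd⟩ : ∃ ε : ℤ, (ε = 1 ∨ ε = -1) ∧ quadraticChar (ZMod q) (x + y) ≠ ε ∧
        decide (ε = 1) ≠ decide (quadraticChar (ZMod q) (x + y) = 1) := by
      by_cases h1 : quadraticChar (ZMod q) (x + y) = 1
      · refine ⟨-1, Or.inr rfl, ?_, ?_⟩
        · rw [h1]
          norm_num
        · rw [h1]
          decide
      · refine ⟨1, Or.inl rfl, h1, ?_⟩
        rw [decide_eq_false h1]
        decide
    have hcount := charCount hq2 hd ε hε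
    rw [hneg, add_neg_cancel, mul_zero, sub_zero] at hcount
    set A := univ.filter (fun u : ZMod q => quadraticChar (ZMod q) u = ε ∧
      quadraticChar (ZMod q) (u + (y - x)) = ε) with hA
    have hle : A.card ≤ (opp (fun x y : ZMod q =>
        decide (quadraticChar (ZMod q) (x + y) = 1)) x y).card := by
      apply Finset.card_le_card_of_injOn (fun u => u - x)
      · intro u hu
        have hu' : u ∈ A := hu
        rw [hA, mem_filter] at hu'
        obtain ⟨-, h1, h2⟩ := hu'
        have e1 : x + (u - x) = u := by ring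
        have e2 : y + (u - x) = u + (y - x) := by ring
        rw [mem_coe]
        simp only [opp, mem_filter, mem_univ, true_and]
        rw [e1, e2, h1, h2]
        refine ⟨?_, ?_, hεd, hεd⟩
        · intro hz
          apply hεn
          rw [← h2]
          congr 1
          linear_combination (-1 : ZMod q) * hz
        · intro hz
          apply hεn
          rw [← h1]
          congr 1
          linear_combination (-1 : ZMod q) * hz
      · intro u _ v _ huv
        exact sub_left_injective huv
    have h3 : 3 ≤ q := by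
      have := hp.two_le
      omega
    omega

end ZS44129
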