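import Mathlib
import Pool.Agent.Work.MP_44129c_co.MF.Basic

/-!
# MP_44129c_co/MF, module Twin (size S)

Proof.  Let `b` witness `MFs N s` on `Fin N`, `x₀ = 0`, `x₁ = 1` (`2 ≤ N`).  Work on the type
`Option (Fin N)` (cardinality `N + 1`) and use `mfs_of_type`.  Put `π none = x₀`, `π (some x) = x`
and `b' p q = b (π p) (π q)` if `π p ≠ π q`, and `b' p q = b x₀ x₁` if `π p = π q`.  It is
symmetric.  Let `p ≠ q`.
* `π p ≠ π q`: for every `z ∈ opp b (π p) (π q)` the vertex `some z` lies in `opp b' p q`
  (`z ≠ π p, π q`, so `some z ≠ p, q`: if `p = some x` then `x = π p ≠ z`; if `p = none` clear).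
  So `opp b' p q` has at least `s` elements (image under the injective map `some`).
* `π p = π q`: then `{p, q} = {none, some x₀}`.  For every `z ∈ opp b x₀ x₁` the vertex `some z` lies
  in `opp b' p q`: `z ≠ x₀`, `b' p (some z) = b x₀ z ≠ b x₀ x₁ = b' p q`, same for `q`.
-/

set_option autoImplicit false

namespace ZS44129

open Finset

theorem mfs_twin {N s : ℕ} (hN : 2 ≤ N) (h : MFs N s) : MFs (N + 1) s := by
  classical
  obtain ⟨b, hb, h⟩ := h
  let x0 : Fin N := ⟨0, by omega⟩
  let x1 : Fin N := ⟨1, by omega⟩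
  have hx01 : x0 ≠ x1 := by
    intro h'
    have := congrArg Fin.val h'
    simp [x0, x1] at this
  let pr : Option (Fin N) → Fin N := fun p => p.getD x0
  let b' : Option (Fin N) → Option (Fin N) → Bool := fun p q =>
    if pr p = pr q then b x0 x1 else b (pr p) (pr q)
  have hsym : ∀ p q, b' p q = b' q p := by
    intro p q
    simp only [b']
    by_cases hpq : pr p = pr q
    · rw [if_pos hpq, if_pos hpq.symm]
    · rw [if_neg hpq, if_neg (Ne.symm hpq), hb]
  have hne : ∀ p q, pr p ≠ pr q → b' p q = b (pr p) (pr q) := by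
    intro p q hpq
    simp only [b', if_neg hpq]
  have heq : ∀ p q, pr p = pr q → b' p q = b x0 x1 := by
    intro p q hpq
    simp only [b', if_pos hpq]
  have hsome : ∀ z : Fin N, pr (some z) = z := fun z => rfl
  refine mfs_of_type (V := Option (Fin N)) (by simp) b' hsym ?_
  intro p q hpq
  have key : ∀ x y : Fin N, x ≠ y →
      (∀ z ∈ opp b x y, (some z : Option (Fin N)) ∈ opp b' p q) → s ≤ (opp b' p q).card := by
    intro x y hxy hz
    refine (h x y hxy).trans ?_
    refine Finset.card_le_card_of_injOn (fun z => some z) (fun z hz' => hz z hz') ?_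
    intro z _ z' _ hzz
    exact Option.some_injective _ hzz
  by_cases hc : pr p = pr q
  · have hp0 : pr p = x0 := by
      cases p with
      | none => rfl
      | some x =>
        cases q with
        | none => exact hc
        | some y => exact absurd (by rw [hsome, hsome] at hc; rw [hc]) hpq
    have hq0 : pr q = x0 := by rw [← hc, hp0]
    refine key x0 x1 hx01 fun z hz => ?_
    simp only [opp, mem_filter, mem_univ, true_and] at hz ⊢
    obtain ⟨h1, h2, h3, h4⟩ := hz
    have hpz : pr p ≠ pr (some z) := by rw [hp0, hsome]; exact Ne.symm h1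
    have hqz : pr q ≠ pr (some z) := by rw [hq0, hsome]; exact Ne.symm h1
    refine ⟨fun h' => hpz (by rw [h']), fun h' => hqz (by rw [h']), ?_, ?_⟩
    · rw [hne _ _ hpz, heq _ _ hc, hp0, hsome]
      exact h3
    · rw [hne _ _ hqz, heq _ _ hc, hq0, hsome]
      exact h3
  · refine key (pr p) (pr q) hc fun z hz => ?_
    simp only [opp, mem_filter, mem_univ, true_and] at hz ⊢
    obtain ⟨h1, h2, h3, h4⟩ := hz
    have hpz : pr p ≠ pr (some z) := by rw [hsome]; exact Ne.symm h1
    have hqz : pr q ≠ pr (some z) := by rw [hsome]; exact Ne.symm h2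
    refine ⟨fun h' => hpz (by rw [h']), fun h' => hqz (by rw [h']), ?_, ?_⟩
    · rw [hne _ _ hpz, hne _ _ hc, hsome]
      exact h3
    · rw [hne _ _ hqz, hne _ _ hc, hsome]
      exact h4

end ZS44129
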