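import Mathlib
import Pool.Agent.Work.MP_44129c_co.MF.Basic
import Pool.Agent.Work.MP_44129c_co.MF.Twin
import Pool.Agent.Work.MP_44129c_co.MF.Del
import Pool.Agent.Work.MP_44129c_co.MF.Blow
import Pool.Agent.Work.MP_44129c_co.MF.PalP
import Pool.Agent.Work.MP_44129c_co.MF.PalQ

/-!
# MP_44129c_co/MF, module Table (helper8): certificates for 5 ≤ N < 690

An entry for `N` is `(q, l)`: start with the Paley colouring of the prime `q`, then apply the steps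
`l` (`0` = twin, `1` = deletion, `a ≥ 2` = blow-up with factor `a`).
-/

set_option autoImplicit false

namespace ZS44129

open Finset

/-- one step on pairs `(N, s)`. -/
def stp (p : ℕ × ℕ) (o : ℕ) : ℕ × ℕ :=
  if o = 0 then (p.1 + 1, p.2)
  else if o = 1 then (if 3 ≤ p.1 then (p.1 - 1, p.2 - 1) else p)
  else (o * p.1, o * p.2)

/-- evaluation of a certificate. -/
def evc (e : ℕ × List ℕ) : ℕ × ℕ :=
  e.2.foldl stp (e.1, if e.1 % 4 = 1 then (e.1 - 1) / 4 else (e.1 - 3) / 4)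

theorem mfs_stp {p : ℕ × ℕ} (o : ℕ) (h : 2 ≤ p.1) (hp : MFs p.1 p.2) :
    2 ≤ (stp p o).1 ∧ MFs (stp p o).1 (stp p o).2 := by
  unfold stp
  split_ifs with h0 h1 h2
  · exact ⟨by simp; omega, mfs_twin h hp⟩
  · refine ⟨by simp; omega, ?_⟩
    obtain ⟨N, hN⟩ : ∃ N, p.1 = N + 1 := ⟨p.1 - 1, by omega⟩
    simp only [hN, Nat.add_sub_cancel]
    rcases Nat.eq_zero_or_pos p.2 with hs | hs
    · rw [hs]; exact mfs_zero _
    · obtain ⟨s, hs'⟩ : ∃ s, p.2 = s + 1 := ⟨p.2 - 1, by omega⟩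
      rw [hs', Nat.add_sub_cancel]
      apply mfs_del
      rw [← hN, ← hs']; exact hp
  · exact ⟨h, hp⟩
  · refine ⟨?_, mfs_blow o h hp⟩
    have ho : 2 ≤ o := by omega
    simp only
    nlinarith

theorem mfs_foldl (l : List ℕ) : ∀ p : ℕ × ℕ, 2 ≤ p.1 → MFs p.1 p.2 →
    2 ≤ (l.foldl stp p).1 ∧ MFs (l.foldl stp p).1 (l.foldl stp p).2 := by
  induction l with
  | nil => intro p h hp; exact ⟨h, hp⟩
  | cons o l ih =>
    intro p h hp
    have h1 := mfs_stp o h hp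
    exact ih _ h1.1 h1.2

/-- trial division, correct for `2 ≤ q < 729`. -/
def isPr (q : ℕ) : Bool :=
  decide (3 ≤ q) && decide (q < 729) &&
    (List.range 25).all (fun d => decide (q ≤ d + 2) || !decide (q % (d + 2) = 0))

theorem prime_of_isPr {q : ℕ} (h : isPr q = true) : q.Prime := by
  unfold isPr at h
  simp only [Bool.and_eq_true, decide_eq_true_eq, List.all_eq_true, List.mem_range,
    Bool.or_eq_true, Bool.not_eq_true', decide_eq_false_iff_not] at h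
  obtain ⟨⟨h3, h7⟩, h⟩ := h
  by_contra hnp
  have h1 : (q.minFac) ^ 2 ≤ q := Nat.minFac_sq_le_self (by omega) hnp
  have h2 : 2 ≤ q.minFac := (Nat.minFac_prime (by omega)).two_le
  have h4 : q.minFac < 27 := by nlinarith
  have h5 : q.minFac ∣ q := Nat.minFac_dvd q
  have h6 : q.minFac < q := by nlinarith
  rcases h (q.minFac - 2) (by omega) with h8 | h8
  · omega
  · apply h8
    have : q.minFac - 2 + 2 = q.minFac := by omega
    rw [this]
    exact Nat.mod_eq_zero_of_dvd h5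

theorem mfs_evc {e : ℕ × List ℕ} (h : isPr e.1 = true) : MFs (evc e).1 (evc e).2 := by
  have hp := prime_of_isPr h
  have h3 : 3 ≤ e.1 := by
    unfold isPr at h
    simp only [Bool.and_eq_true, decide_eq_true_eq] at h
    exact h.1.1
  have hodd : e.1 % 2 = 1 := hp.eq_two_or_odd.resolve_left (by omega)
  refine (mfs_foldl e.2 _ (by simp only; omega) ?_).2
  simp only
  split_ifs with h4
  · exact mfs_paley hp h4
  · exact mfs_sumPaley hp (by omega)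

/-- what is checked of the value `F` for `N`. -/
def okF (N F : ℕ) : Bool :=
  (decide (N ≤ 4 * F + 6) || (decide (22 ≤ F) && decide (29 * (N - 5 - 4 * F) ≤ 3 * F + 3))) &&
    (decide (N < 345) || decide (29 * (N + 1 - 4 * F) ≤ 3 * F))

/-- what is checked of an entry. -/
def okE (N : ℕ) (e : ℕ × List ℕ) : Bool :=
  isPr e.1 && decide ((evc e).1 = N) && okF N (evc e).2

/-- entries 5, ... -/
def tb0 : List (ℕ × List ℕ) :=
  [(5, []), (5, [0]), (7, []), (7, [0]), (7, [0, 0]), (5, [2]), (11, []), (11, [0]), (13, []),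
  (13, [0]), (13, [0, 0]), (13, [0, 0, 0]), (17, []), (17, [0]), (19, []), (19, [0]), (19, [0,
  0]), (19, [0, 0, 0]), (23, []), (23, [0]), (23, [0, 0]), (13, [2]), (13, [2, 0]), (13, [2,
  0, 0]), (29, []), (29, [0]), (31, []), (31, [0]), (31, [0, 0]), (17, [2]), (17, [2, 0]),
  (17, [2, 0, 0]), (37, []), (37, [0]), (37, [0, 0]), (37, [0, 0, 0]), (41, []), (41, [0]),
  (43, []), (43, [0]), (43, [0, 0]), (43, [0, 0, 0]), (47, []), (47, [0]), (47, [0, 0]), (47,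
  [0, 0, 0]), (17, [3]), (17, [3, 0]), (53, []), (53, [0]), (53, [0, 0]), (53, [0, 0, 0]),
  (53, [0, 0, 0, 0]), (29, [2]), (59, []), (59, [0]), (61, []), (61, [0]), (61, [0, 0]), (61,
  [0, 0, 0]), (61, [0, 0, 0, 0]), (61, [0, 0, 0, 0, 0]), (67, []), (67, [0]), (67, [0, 0]),
  (67, [0, 0, 0]), (71, []), (71, [0]), (73, []), (73, [0]), (73, [0, 0]), (73, [0, 0, 0]),
  (73, [0, 0, 0, 0]), (73, [0, 0, 0, 0, 0]), (79, []), (79, [0]), (79, [0, 0]), (41, [2]),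
  (83, []), (83, [0]), (83, [0, 0]), (83, [0, 0, 0]), (29, [3]), (29, [3, 0]), (89, []), (89,
  [0]), (89, [0, 0]), (89, [0, 0, 0]), (89, [0, 0, 0, 0]), (89, [0, 0, 0, 0, 0]), (89, [0, 0,
  0, 0, 0, 0]), (97, [1]), (97, []), (97, [0]), (97, [0, 0]), (97, [0, 0, 0]), (101, []),
  (101, [0]), (103, []), (103, [0]), (103, [0, 0]), (53, [2]), (107, []), (107, [0]), (109,
  []), (109, [0]), (109, [0, 0]), (109, [0, 0, 0]), (113, []), (113, [0]), (113, [0, 0]),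
  (113, [0, 0, 0]), (113, [0, 0, 0, 0]), (113, [0, 0, 0, 0, 0]), (113, [0, 0, 0, 0, 0, 0]),
  (113, [0, 0, 0, 0, 0, 0, 0]), (61, [2, 1]), (61, [2]), (61, [2, 0]), (61, [2, 0, 0]), (61,
  [2, 0, 0, 0]), (61, [2, 0, 0, 0, 0]), (127, []), (127, [0]), (127, [0, 0]), (127, [0, 0,
  0]), (131, []), (131, [0]), (131, [0, 0]), (131, [0, 0, 0]), (131, [0, 0, 0, 0]), (137,
  [1]), (137, []), (137, [0]), (139, []), (139, [0]), (139, [0, 0])]

/-- entries 142, ... -/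
def tb1 : List (ℕ × List ℕ) :=
  [(139, [0, 0, 0]), (139, [0, 0, 0, 0]), (139, [0, 0, 0, 0, 0]), (29, [5]), (73, [2]), (73,
  [2, 0]), (73, [2, 0, 0]), (149, []), (149, [0]), (151, []), (151, [0]), (151, [0, 0]), (151,
  [0, 0, 0]), (151, [0, 0, 0, 0]), (157, [1]), (157, []), (157, [0]), (157, [0, 0]), (157, [0,
  0, 0]), (157, [0, 0, 0, 0]), (157, [0, 0, 0, 0, 0]), (163, []), (163, [0]), (163, [0, 0]),
  (163, [0, 0, 0]), (167, []), (167, [0]), (167, [0, 0]), (167, [0, 0, 0]), (167, [0, 0, 0,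
  0]), (173, [1]), (173, []), (173, [0]), (173, [0, 0]), (173, [0, 0, 0]), (173, [0, 0, 0,
  0]), (89, [2]), (179, []), (179, [0]), (181, []), (181, [0]), (181, [0, 0]), (181, [0, 0,
  0]), (181, [0, 0, 0, 0]), (181, [0, 0, 0, 0, 0]), (181, [0, 0, 0, 0, 0, 0]), (181, [0, 0, 0,
  0, 0, 0, 0]), (181, [0, 0, 0, 0, 0, 0, 0, 0]), (191, [1]), (191, []), (191, [0]), (193, []),
  (193, [0]), (193, [0, 0]), (193, [0, 0, 0]), (197, []), (197, [0]), (199, []), (199, [0]),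
  (199, [0, 0]), (101, [2]), (101, [2, 0]), (101, [2, 0, 0]), (101, [2, 0, 0, 0]), (101, [2,
  0, 0, 0, 0]), (101, [2, 0, 0, 0, 0, 0]), (101, [2, 0, 0, 0, 0, 0, 0]), (101, [2, 0, 0, 0, 0,
  0, 0, 0]), (211, [1]), (211, []), (211, [0]), (211, [0, 0]), (211, [0, 0, 0]), (211, [0, 0,
  0, 0]), (211, [0, 0, 0, 0, 0]), (109, [2, 1]), (109, [2]), (109, [2, 0]), (109, [2, 0, 0]),
  (109, [2, 0, 0, 0]), (109, [2, 0, 0, 0, 0]), (223, []), (223, [0]), (223, [0, 0]), (113,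
  [2]), (227, []), (227, [0]), (229, []), (229, [0]), (229, [0, 0]), (229, [0, 0, 0]), (233,
  []), (233, [0]), (233, [0, 0]), (233, [0, 0, 0]), (233, [0, 0, 0, 0]), (233, [0, 0, 0, 0,
  0]), (239, []), (239, [0]), (241, []), (241, [0]), (241, [0, 0]), (241, [0, 0, 0]), (241,
  [0, 0, 0, 0]), (241, [0, 0, 0, 0, 0]), (241, [0, 0, 0, 0, 0, 0]), (241, [0, 0, 0, 0, 0, 0,
  0]), (241, [0, 0, 0, 0, 0, 0, 0, 0]), (251, [1]), (251, []), (251, [0]), (251, [0, 0]),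
  (251, [0, 0, 0]), (251, [0, 0, 0, 0]), (257, [1]), (257, []), (257, [0]), (257, [0, 0]),
  (257, [0, 0, 0]), (257, [0, 0, 0, 0]), (257, [0, 0, 0, 0, 0]), (263, []), (263, [0]), (263,
  [0, 0]), (263, [0, 0, 0]), (89, [3]), (89, [3, 0]), (269, []), (269, [0]), (271, []), (271,
  [0]), (271, [0, 0]), (137, [2]), (137, [2, 0]), (137, [2, 0, 0]), (277, []), (277, [0])]

/-- entries 279, ... -/
def tb2 : List (ℕ × List ℕ) :=
  [(277, [0, 0]), (277, [0, 0, 0]), (281, []), (281, [0]), (283, []), (283, [0]), (283, [0,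
  0]), (283, [0, 0, 0]), (283, [0, 0, 0, 0]), (283, [0, 0, 0, 0, 0]), (283, [0, 0, 0, 0, 0,
  0]), (97, [3, 1]), (97, [3]), (97, [3, 0]), (293, []), (293, [0]), (293, [0, 0]), (293, [0,
  0, 0]), (293, [0, 0, 0, 0]), (149, [2]), (149, [2, 0]), (149, [2, 0, 0]), (149, [2, 0, 0,
  0]), (149, [2, 0, 0, 0, 0]), (101, [3]), (101, [3, 0]), (101, [3, 0, 0]), (101, [3, 0, 0,
  0]), (307, []), (307, [0]), (307, [0, 0]), (307, [0, 0, 0]), (311, []), (311, [0]), (313,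
  []), (313, [0]), (313, [0, 0]), (313, [0, 0, 0]), (317, []), (317, [0]), (317, [0, 0]),
  (317, [0, 0, 0]), (317, [0, 0, 0, 0]), (317, [0, 0, 0, 0, 0]), (317, [0, 0, 0, 0, 0, 0]),
  (317, [0, 0, 0, 0, 0, 0, 0]), (317, [0, 0, 0, 0, 0, 0, 0, 0]), (163, [2]), (109, [3]), (109,
  [3, 0]), (109, [3, 0, 0]), (109, [3, 0, 0, 0]), (331, []), (331, [0]), (331, [0, 0]), (331,
  [0, 0, 0]), (331, [0, 0, 0, 0]), (337, [1]), (337, []), (337, [0]), (337, [0, 0]), (337, [0,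
  0, 0]), (337, [0, 0, 0, 0]), (337, [0, 0, 0, 0, 0]), (337, [0, 0, 0, 0, 0, 0]), (337, [0, 0,
  0, 0, 0, 0, 0]), (173, [2, 1]), (173, [2]), (347, []), (347, [0]), (349, []), (349, [0]),
  (349, [0, 0]), (349, [0, 0, 0]), (353, []), (353, [0]), (353, [0, 0]), (353, [0, 0, 0]),
  (353, [0, 0, 0, 0]), (353, [0, 0, 0, 0, 0]), (359, []), (359, [0]), (359, [0, 0]), (181,
  [2]), (181, [2, 0]), (181, [2, 0, 0]), (181, [2, 0, 0, 0]), (181, [2, 0, 0, 0, 0]), (367,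
  []), (367, [0]), (367, [0, 0]), (367, [0, 0, 0]), (367, [0, 0, 0, 0]), (373, [1]), (373,
  []), (373, [0]), (373, [0, 0]), (373, [0, 0, 0]), (373, [0, 0, 0, 0]), (373, [0, 0, 0, 0,
  0]), (379, []), (379, [0]), (379, [0, 0]), (379, [0, 0, 0]), (383, []), (383, [0]), (383,
  [0, 0]), (193, [2]), (193, [2, 0]), (193, [2, 0, 0]), (389, []), (389, [0]), (389, [0, 0]),
  (389, [0, 0, 0]), (389, [0, 0, 0, 0]), (197, [2]), (197, [2, 0]), (197, [2, 0, 0]), (397,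
  []), (397, [0]), (397, [0, 0]), (397, [0, 0, 0]), (401, []), (401, [0]), (401, [0, 0]),
  (401, [0, 0, 0]), (401, [0, 0, 0, 0]), (401, [0, 0, 0, 0, 0]), (401, [0, 0, 0, 0, 0, 0]),
  (409, [1]), (409, []), (409, [0]), (409, [0, 0]), (409, [0, 0, 0]), (409, [0, 0, 0, 0]),
  (409, [0, 0, 0, 0, 0]), (409, [0, 0, 0, 0, 0, 0])]

/-- entries 416, ... -/
def tb3 : List (ℕ × List ℕ) :=
  [(409, [0, 0, 0, 0, 0, 0, 0]), (409, [0, 0, 0, 0, 0, 0, 0, 0]), (419, [1]), (419, []), (419,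
  [0]), (421, []), (421, [0]), (421, [0, 0]), (421, [0, 0, 0]), (421, [0, 0, 0, 0]), (421, [0,
  0, 0, 0, 0]), (421, [0, 0, 0, 0, 0, 0]), (421, [0, 0, 0, 0, 0, 0, 0]), (421, [0, 0, 0, 0, 0,
  0, 0, 0]), (431, [1]), (431, []), (431, [0]), (433, []), (433, [0]), (433, [0, 0]), (433,
  [0, 0, 0]), (433, [0, 0, 0, 0]), (433, [0, 0, 0, 0, 0]), (439, []), (439, [0]), (439, [0,
  0]), (439, [0, 0, 0]), (443, []), (443, [0]), (443, [0, 0]), (443, [0, 0, 0]), (149, [3]),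
  (149, [3, 0]), (449, []), (449, [0]), (449, [0, 0]), (449, [0, 0, 0]), (449, [0, 0, 0, 0]),
  (449, [0, 0, 0, 0, 0]), (449, [0, 0, 0, 0, 0, 0]), (457, [1]), (457, []), (457, [0]), (457,
  [0, 0]), (457, [0, 0, 0]), (461, []), (461, [0]), (463, []), (463, [0]), (463, [0, 0]),
  (233, [2]), (467, []), (467, [0]), (467, [0, 0]), (467, [0, 0, 0]), (157, [3]), (157, [3,
  0]), (157, [3, 0, 0]), (157, [3, 0, 0, 0]), (157, [3, 0, 0, 0, 0]), (157, [3, 0, 0, 0, 0,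
  0]), (157, [3, 0, 0, 0, 0, 0, 0]), (479, [1]), (479, []), (479, [0]), (479, [0, 0]), (241,
  [2]), (241, [2, 0]), (241, [2, 0, 0]), (241, [2, 0, 0, 0]), (241, [2, 0, 0, 0, 0]), (487,
  []), (487, [0]), (487, [0, 0]), (487, [0, 0, 0]), (491, []), (491, [0]), (491, [0, 0]),
  (491, [0, 0, 0]), (491, [0, 0, 0, 0]), (491, [0, 0, 0, 0, 0]), (491, [0, 0, 0, 0, 0, 0]),
  (499, [1]), (499, []), (499, [0]), (499, [0, 0]), (499, [0, 0, 0]), (503, []), (503, [0]),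
  (503, [0, 0]), (503, [0, 0, 0]), (503, [0, 0, 0, 0]), (509, [1]), (509, []), (509, [0]),
  (509, [0, 0]), (509, [0, 0, 0]), (509, [0, 0, 0, 0]), (257, [2]), (257, [2, 0]), (257, [2,
  0, 0]), (257, [2, 0, 0, 0]), (257, [2, 0, 0, 0, 0]), (173, [3]), (173, [3, 0]), (521, []),
  (521, [0]), (523, []), (523, [0]), (523, [0, 0]), (523, [0, 0, 0]), (523, [0, 0, 0, 0]),
  (523, [0, 0, 0, 0, 0]), (523, [0, 0, 0, 0, 0, 0]), (523, [0, 0, 0, 0, 0, 0, 0]), (523, [0,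
  0, 0, 0, 0, 0, 0, 0]), (523, [0, 0, 0, 0, 0, 0, 0, 0, 0]), (89, [3, 2, 1]), (89, [3, 2]),
  (89, [3, 2, 0]), (89, [3, 2, 0, 0]), (269, [2, 1]), (269, [2]), (269, [2, 0]), (269, [2, 0,
  0]), (541, []), (541, [0]), (541, [0, 0]), (541, [0, 0, 0]), (541, [0, 0, 0, 0]), (541, [0,
  0, 0, 0, 0]), (547, []), (547, [0]), (547, [0, 0]), (547, [0, 0, 0]), (547, [0, 0, 0, 0]),
  (547, [0, 0, 0, 0, 0])]

/-- entries 553, ... -/
def tb4 : List (ℕ × List ℕ) :=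
  [(277, [2, 1]), (277, [2]), (277, [2, 0]), (277, [2, 0, 0]), (557, []), (557, [0]), (557,
  [0, 0]), (557, [0, 0, 0]), (557, [0, 0, 0, 0]), (281, [2]), (563, []), (563, [0]), (563, [0,
  0]), (563, [0, 0, 0]), (563, [0, 0, 0, 0]), (569, [1]), (569, []), (569, [0]), (571, []),
  (571, [0]), (571, [0, 0]), (571, [0, 0, 0]), (571, [0, 0, 0, 0]), (577, [1]), (577, []),
  (577, [0]), (577, [0, 0]), (577, [0, 0, 0]), (577, [0, 0, 0, 0]), (577, [0, 0, 0, 0, 0]),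
  (577, [0, 0, 0, 0, 0, 0]), (577, [0, 0, 0, 0, 0, 0, 0]), (293, [2, 1]), (293, [2]), (587,
  []), (587, [0]), (587, [0, 0]), (587, [0, 0, 0]), (197, [3]), (197, [3, 0]), (593, []),
  (593, [0]), (593, [0, 0]), (593, [0, 0, 0]), (593, [0, 0, 0, 0]), (593, [0, 0, 0, 0, 0]),
  (599, []), (599, [0]), (601, []), (601, [0]), (601, [0, 0]), (601, [0, 0, 0]), (601, [0, 0,
  0, 0]), (601, [0, 0, 0, 0, 0]), (607, []), (607, [0]), (607, [0, 0]), (607, [0, 0, 0]),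
  (607, [0, 0, 0, 0]), (613, [1]), (613, []), (613, [0]), (613, [0, 0]), (613, [0, 0, 0]),
  (617, []), (617, [0]), (619, []), (619, [0]), (619, [0, 0]), (619, [0, 0, 0]), (619, [0, 0,
  0, 0]), (619, [0, 0, 0, 0, 0]), (313, [2, 1]), (313, [2]), (313, [2, 0]), (313, [2, 0, 0]),
  (313, [2, 0, 0, 0]), (313, [2, 0, 0, 0, 0]), (631, []), (631, [0]), (631, [0, 0]), (317,
  [2]), (317, [2, 0]), (317, [2, 0, 0]), (317, [2, 0, 0, 0]), (317, [2, 0, 0, 0, 0]), (317,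
  [2, 0, 0, 0, 0, 0]), (641, [1]), (641, []), (641, [0]), (643, []), (643, [0]), (643, [0,
  0]), (643, [0, 0, 0]), (647, []), (647, [0]), (647, [0, 0]), (647, [0, 0, 0]), (647, [0, 0,
  0, 0]), (653, [1]), (653, []), (653, [0]), (653, [0, 0]), (653, [0, 0, 0]), (653, [0, 0, 0,
  0]), (653, [0, 0, 0, 0, 0]), (659, []), (659, [0]), (661, []), (661, [0]), (661, [0, 0]),
  (661, [0, 0, 0]), (661, [0, 0, 0, 0]), (661, [0, 0, 0, 0, 0]), (661, [0, 0, 0, 0, 0, 0]),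
  (661, [0, 0, 0, 0, 0, 0, 0]), (661, [0, 0, 0, 0, 0, 0, 0, 0]), (661, [0, 0, 0, 0, 0, 0, 0,
  0, 0]), (673, [1, 1]), (673, [1]), (673, []), (673, [0]), (673, [0, 0]), (673, [0, 0, 0]),
  (677, []), (677, [0]), (677, [0, 0]), (677, [0, 0, 0]), (677, [0, 0, 0, 0]), (677, [0, 0, 0,
  0, 0]), (683, []), (683, [0]), (683, [0, 0]), (683, [0, 0, 0]), (229, [3]), (229, [3, 0]),
  (229, [3, 0, 0])]

theorem tb0_ok : ∀ i < 137, okE (i + 5) (tb0.getD i (0, [])) = true := by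
  decide +kernel

theorem tb1_ok : ∀ i < 137, okE (i + 142) (tb1.getD i (0, [])) = true := by
  decide +kernel

theorem tb2_ok : ∀ i < 137, okE (i + 279) (tb2.getD i (0, [])) = true := by
  decide +kernel

theorem tb3_ok : ∀ i < 137, okE (i + 416) (tb3.getD i (0, [])) = true := by
  decide +kernel

theorem tb4_ok : ∀ i < 137, okE (i + 553) (tb4.getD i (0, [])) = true := by
  decide +kernel

theorem table {N : ℕ} (h5 : 5 ≤ N) (h : N < 690) : ∃ F, MFs N F ∧ okF N F = true := by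
  have key : ∀ e : ℕ × List ℕ, okE N e = true → ∃ F, MFs N F ∧ okF N F = true := by
    intro e he
    unfold okE at he
    simp only [Bool.and_eq_true, decide_eq_true_eq] at he
    refine ⟨(evc e).2, ?_, he.2⟩
    rw [← he.1.2]
    exact mfs_evc he.1.1
  have hc : N - 5 < 137 ∨ (137 ≤ N - 5 ∧ N - 5 < 274) ∨ (274 ≤ N - 5 ∧ N - 5 < 411) ∨
      (411 ≤ N - 5 ∧ N - 5 < 548) ∨ (548 ≤ N - 5 ∧ N - 5 < 685) := by omega
  rcases hc with h1 | ⟨h1, h2⟩ | ⟨h1, h2⟩ | ⟨h1, h2⟩ | ⟨h1, h2⟩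
  · have := tb0_ok (N - 5) h1
    rw [show N - 5 + 5 = N by omega] at this
    exact key _ this
  · have := tb1_ok (N - 5 - 137) (by omega)
    rw [show N - 5 - 137 + 142 = N by omega] at this
    exact key _ this
  · have := tb2_ok (N - 5 - 274) (by omega)
    rw [show N - 5 - 274 + 279 = N by omega] at this
    exact key _ this
  · have := tb3_ok (N - 5 - 411) (by omega)
    rw [show N - 5 - 411 + 416 = N by omega] at this
    exact key _ this
  · have := tb4_ok (N - 5 - 548) (by omega)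
    rw [show N - 5 - 548 + 553 = N by omega] at this
    exact key _ this

end ZS44129
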