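import Mathlib
import Pool.Agent.Work.MP_44129c_co.MF.Table

/-!
# MP_44129c_co/MF, module Range (helper8): the positive side (part (6))
-/

set_option autoImplicit false

namespace ZS44129

open Finset

theorem mfs_twins {N s : ℕ} (hN : 2 ≤ N) (h : MFs N s) (r : ℕ) : MFs (N + r) s := by
  induction r with
  | zero => exact h
  | succ r ih =>
    have h2 : 2 ≤ N + r := by omega
    exact mfs_twin h2 ih

/-- Let `4 s + 1 ≤ N`.  If there is no colouring `MFs N s` then `N ≤ 4 s + 2`, or `23 ≤ s` and
`29 (N - 1 - 4 s) ≤ 3 s`. -/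
theorem mf_range {N s : ℕ} (h : 4 * s + 1 ≤ N) (hn : ¬ MFs N s) :
    N ≤ 4 * s + 2 ∨ (23 ≤ s ∧ 29 * (N - 1 - 4 * s) ≤ 3 * s) := by
  rcases Nat.lt_or_ge N 5 with h5 | h5
  · exfalso
    have : s = 0 := by omega
    subst this
    exact hn (mfs_zero _)
  rcases Nat.lt_or_ge N 690 with h6 | h6
  · obtain ⟨F, hF, hok⟩ := table h5 h6
    have hs : F < s := by
      by_contra hc
      exact hn (mfs_mono hF (by omega))
    unfold okF at hok
    simp only [Bool.and_eq_true, Bool.or_eq_true, decide_eq_true_eq] at hok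
    rcases hok.1 with h7 | ⟨h7, h8⟩
    · left; omega
    · right; omega
  · have ha : 2 ≤ N / 345 := by omega
    obtain ⟨a, haa⟩ : ∃ a, a = N / 345 := ⟨_, rfl⟩
    rw [← haa] at ha
    have hdiv := Nat.div_add_mod N 345
    have hmod := Nat.mod_lt N (show 345 > 0 by norm_num)
    rw [← haa] at hdiv
    obtain ⟨N0, hN0⟩ : ∃ N0, N0 = N / a := ⟨_, rfl⟩
    have hdiv2 := Nat.div_add_mod N a
    have hmod2 := Nat.mod_lt N (show a > 0 by omega)
    rw [← hN0] at hdiv2
    have h345 : 345 ≤ N0 := by
      rw [hN0, Nat.le_div_iff_mul_le (by omega)]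
      omega
    have h690 : N0 < 690 := by
      rw [hN0, Nat.div_lt_iff_lt_mul (by omega)]
      omega
    obtain ⟨F, hF, hok⟩ := table (by omega) h690
    unfold okF at hok
    simp only [Bool.and_eq_true, Bool.or_eq_true, decide_eq_true_eq] at hok
    have hwin : 29 * (N0 + 1 - 4 * F) ≤ 3 * F := by
      rcases hok.2 with h7 | h7
      · omega
      · exact h7
    have h8 : MFs N (a * F) := by
      have h9 := mfs_twins (r := N % a) (show 2 ≤ a * N0 by nlinarith) (mfs_blow a (by omega) hF)
      rw [hdiv2] at h9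
      exact h9
    have hs : a * F < s := by
      by_contra hc
      exact hn (mfs_mono h8 (by omega))
    have hF84 : 84 ≤ F := by omega
    right
    refine ⟨by nlinarith, ?_⟩
    rcases Nat.lt_or_ge (4 * F) (N0 + 1) with h10 | h10
    · obtain ⟨k, hk⟩ : ∃ k, N0 + 1 = 4 * F + k := ⟨N0 + 1 - 4 * F, by omega⟩
      have h11 : 29 * k ≤ 3 * F := by
        have : N0 + 1 - 4 * F = k := by omega
        rw [this] at hwin
        exact hwin
      have h12 : a * N0 + a = 4 * (a * F) + a * k := by
        have : a * N0 + a = a * (N0 + 1) := by ring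
        rw [this, hk]; ring
      have h13 : 29 * (a * k) ≤ 3 * (a * F) := by nlinarith
      omega
    · have h12 : a * N0 + a ≤ 4 * (a * F) := by nlinarith
      omega

end ZS44129
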