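import Mathlib
import Pool.Agent.Work.MP_44129c_co.MF.Basic

/-!
# MP_44129c_co/MF, module Had (definitions FIXED, helper8): symmetric Hadamard matrices
-/

set_option autoImplicit false

namespace ZS44129

open Finset

/-- `H` is a symmetric matrix with entries `1`, `-1` and pairwise orthogonal rows. -/
structure IsHad {V : Type} [Fintype V] (H : V → V → ℤ) : Prop where
  pm : ∀ x y, H x y = 1 ∨ H x y = -1
  sym : ∀ x y, H x y = H y x
  orth : ∀ x y, x ≠ y → ∑ z, H x z * H y z = 0

/-- there is a symmetric Hadamard matrix of order `h`. -/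
def SymHad (h : ℕ) : Prop := ∃ H : Fin h → Fin h → ℤ, IsHad H

theorem symHad_of_type {V : Type} [Fintype V] {h : ℕ} (hV : Fintype.card V = h)
    {H : V → V → ℤ} (hH : IsHad H) : SymHad h := by
  classical
  let e : Fin h ≃ V := (Fintype.equivFinOfCardEq hV).symm
  refine ⟨fun x y => H (e x) (e y), fun x y => hH.pm _ _, fun x y => hH.sym _ _, fun x y hxy => ?_⟩
  rw [← hH.orth (e x) (e y) (fun h' => hxy (e.injective h'))]
  exact Equiv.sum_comp e (fun z => H (e x) z * H (e y) z)

theorem symHad_two : SymHad 2 := by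
  refine ⟨fun x y => if x = 1 ∧ y = 1 then -1 else 1, ?_, ?_, ?_⟩ <;> decide

end ZS44129
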