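import Mathlib
import Pool.Agent.Work.MP_44129c_co.MF.Had
import Pool.Agent.Work.MP_44129c_co.MF.Char

/-!
# MP_44129c_co/MF, module HadA (size M): order q + 1 for a prime q = 3 mod 4

Proof.  `χ = quadraticChar (ZMod q)`, `χ (-1) = -1` (`quadraticChar_neg_one`,
`ZMod.χ₄_nat_three_mod_four`), so `χ (-a) = -χ a`.  On `Option (ZMod q)` (`symHad_of_type`) put
`H none _ = 1`, `H _ none = 1`, `H (some x) (some y) = -1` if `x + y = 0`, else `-χ (x + y)`.
Entries `1`, `-1` (`quadraticChar_dichotomy`), symmetric.
Rows `none`, `some x`: `1 + ∑ y, H (some x) (some y) = 1 + (-1) + (-∑_{y ≠ -x} χ (x + y)) = 0`, since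
`∑_y χ (x + y) = 0` (`quadraticChar_sum_zero`) and the term `y = -x` of this sum is `χ 0 = 0`.
(In one line: `H (some x) (some y) = -χ (x + y) - [x + y = 0]`.)
Rows `some x`, `some x'`, `x ≠ x'`: with `H (some x) (some y) = -χ (x + y) - [y = -x]`:
`1 + ∑_y (χ (x + y) + [y = -x]) (χ (x' + y) + [y = -x']) =
1 + ∑_y χ (x + y) χ (x' + y) + χ (x' - x) + χ (x - x') + 0`
(the last term: `[y = -x][y = -x'] = 0`), and `∑_y χ (x + y) χ (x' + y) = ∑_u χ u χ (u + (x' - x)) = -1`
by `charSum` (substitution `u = x + y`), `χ (x' - x) + χ (x - x') = 0`.  Total `0`.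
-/

set_option autoImplicit false

namespace ZS44129

open Finset

private noncomputable def hadg {q : ℕ} [Fact q.Prime] (u : ZMod q) : ℤ :=
  -quadraticChar (ZMod q) u - if u = 0 then 1 else 0

private noncomputable def hadH {q : ℕ} [Fact q.Prime] (x y : Option (ZMod q)) : ℤ :=
  match x, y with
  | some x, some y => hadg (x + y)
  | _, _ => 1

theorem symHad_prime {q : ℕ} (hp : q.Prime) (h4 : q % 4 = 3) : SymHad (q + 1) := by
  haveI : Fact q.Prime := ⟨hp⟩
  have hq2 : q ≠ 2 := by rintro rfl; omega
  have hrc : ringChar (ZMod q) ≠ 2 := by rw [ZMod.ringChar_zmod_n]; exact hq2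
  have hneg1 : quadraticChar (ZMod q) (-1) = -1 := by
    rw [quadraticChar_neg_one hrc, ZMod.card]
    exact ZMod.χ₄_nat_three_mod_four h4
  have hneg : ∀ d : ZMod q, quadraticChar (ZMod q) (-d) = -quadraticChar (ZMod q) d := by
    intro d
    rw [neg_eq_neg_one_mul, map_mul, hneg1, neg_one_mul]
  have hsum : ∑ u : ZMod q, hadg u = -1 := by
    unfold hadg
    rw [Finset.sum_sub_distrib, Finset.sum_neg_distrib, quadraticChar_sum_zero hrc]
    simp
  have hsumx : ∀ x : ZMod q, ∑ y : ZMod q, hadg (x + y) = -1 := by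
    intro x
    rw [← hsum]
    exact Equiv.sum_comp (Equiv.addLeft x) (fun u => hadg u)
  have hpair : ∀ d : ZMod q, d ≠ 0 → ∑ u : ZMod q, hadg u * hadg (u + d) = -1 := by
    intro d hd
    have h1 : ∀ u : ZMod q, hadg u * hadg (u + d) =
        quadraticChar (ZMod q) u * quadraticChar (ZMod q) (u + d) +
          ((if u = -d then quadraticChar (ZMod q) (-d) else 0) +
          (if u = 0 then quadraticChar (ZMod q) d else 0)) := by
      intro u
      unfold hadg
      by_cases hu : u = 0
      · subst hu
        have h1 : ¬ ((0 : ZMod q) = -d) := by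
          intro h
          exact hd (neg_eq_zero.1 h.symm)
        rw [if_pos rfl, if_neg h1, if_pos rfl, zero_add, if_neg hd, quadraticChar_zero]
        ring
      · by_cases hu2 : u = -d
        · subst hu2
          have h1 : -d + d = 0 := by ring
          rw [if_neg hu, if_pos rfl, if_neg hu, h1, quadraticChar_zero, if_pos rfl]
          ring
        · have h1 : u + d ≠ 0 := fun h => hu2 (eq_neg_of_add_eq_zero_left h)
          rw [if_neg hu, if_neg hu2, if_neg h1, if_neg hu]
          ring
    rw [Finset.sum_congr rfl fun u _ => h1 u, Finset.sum_add_distrib, Finset.sum_add_distrib,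
      charSum hq2 hd, Finset.sum_ite_eq', Finset.sum_ite_eq', if_pos (mem_univ _),
      if_pos (mem_univ _), hneg d]
    ring
  refine symHad_of_type (V := Option (ZMod q)) (by rw [Fintype.card_option, ZMod.card])
    (H := hadH) ⟨?_, ?_, ?_⟩
  · rintro (_ | x) (_ | y)
    · exact Or.inl rfl
    · exact Or.inl rfl
    · exact Or.inl rfl
    · show hadg (x + y) = 1 ∨ hadg (x + y) = -1
      unfold hadg
      by_cases h : x + y = 0
      · rw [h, quadraticChar_zero, if_pos rfl]
        right
        norm_num
      · rw [if_neg h]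
        rcases quadraticChar_dichotomy h with h2 | h2 <;> rw [h2]
        · right
          norm_num
        · left
          norm_num
  · rintro (_ | x) (_ | y)
    · rfl
    · rfl
    · rfl
    · show hadg (x + y) = hadg (y + x)
      rw [add_comm]
  · rintro (_ | x) (_ | x') hne
    · exact absurd rfl hne
    · rw [Fintype.sum_option]
      show (1 : ℤ) * 1 + ∑ y : ZMod q, 1 * hadg (x' + y) = 0
      simp only [one_mul]
      rw [hsumx x']
      norm_num
    · rw [Fintype.sum_option]
      show (1 : ℤ) * 1 + ∑ y : ZMod q, hadg (x + y) * 1 = 0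
      simp only [mul_one]
      rw [hsumx x]
      norm_num
    · rw [Fintype.sum_option]
      show (1 : ℤ) * 1 + ∑ y : ZMod q, hadg (x + y) * hadg (x' + y) = 0
      have hd : x' - x ≠ 0 := by
        intro h
        exact hne (by rw [sub_eq_zero.1 h])
      have h1 : ∑ y : ZMod q, hadg (x + y) * hadg (x' + y) =
          ∑ u : ZMod q, hadg u * hadg (u + (x' - x)) := by
        rw [← Equiv.sum_comp (Equiv.addLeft x) (fun u => hadg u * hadg (u + (x' - x)))]
        refine Finset.sum_congr rfl fun y _ => ?_
        show hadg (x + y) * hadg (x' + y) = hadg (x + y) * hadg (x + y + (x' - x))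
        have e : x + y + (x' - x) = x' + y := by ring
        rw [e]
      rw [h1, hpair _ hd]
      norm_num

end ZS44129
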