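import Mathlib
import Pool.Agent.Work.MP_44129c_co.MF.Had
import Pool.Agent.Work.MP_44129c_co.MF.Char

/-!
# MP_44129c_co/MF, module HadB (size M): order 2 (q + 1) for a prime q = 1 mod 4

Proof.  `χ = quadraticChar (ZMod q)`, `χ (-1) = 1` (`quadraticChar_neg_one`,
`ZMod.χ₄_nat_one_mod_four`), so `χ (-a) = χ a`.  Let `I = Option (ZMod q)` and
`C none none = 0`, `C none (some x) = C (some x) none = 1`, `C (some x) (some y) = χ (x - y)`.
`C` is symmetric, `C i i = 0`, `C i j = 1` or `-1` for `i ≠ j`.
(1) `∑_k C i k * C j k = 0` for `i ≠ j`: for `none, some x`: `∑_y χ (x - y) = 0`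
(`quadraticChar_sum_zero`, substitution); for `some x, some x'`: `1 + ∑_y χ (x - y) χ (x' - y)
= 1 + ∑_u χ u χ (u + (x' - x)) = 0` by `charSum` (`u = x - y`).
On `I × Bool` (cardinality `2 (q + 1)`, `symHad_of_type`) put, with `δ = if i = j then 1 else 0`,
`H (i, false) (j, false) = C i j + δ`, `H (i, false) (j, true) = C i j - δ`,
`H (i, true) (j, false) = C i j - δ`, `H (i, true) (j, true) = -C i j - δ`.
Entries are `1` or `-1` (`i = j`: `1, -1, -1, -1`), symmetric.  Row products (sum over `(k, t)`,
`Fintype.sum_prod_type`, `Fintype.sum_bool`):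
* `(i, false), (j, false)`, `i ≠ j`: `∑_k (C i k + δ_ik)(C j k + δ_jk) + (C i k - δ_ik)(C j k - δ_jk) =
  2 ∑ C i k C j k + 2 ∑ δ_ik δ_jk = 0`;
* `(i, false), (j, true)` (any `i, j`): `∑_k (C i k + δ_ik)(C j k - δ_jk) +
  (C i k - δ_ik)(-C j k - δ_jk) = ∑_k (2 δ_ik C j k - 2 C i k δ_jk) = 2 C j i - 2 C i j = 0`;
* `(i, true), (j, true)`, `i ≠ j`: `∑_k (C i k - δ_ik)(C j k - δ_jk) +
  (C i k + δ_ik)(C j k + δ_jk) = 0` as in the first case.
-/

set_option autoImplicit false

namespace ZS44129

open Finset

private noncomputable def conf {q : ℕ} [Fact q.Prime] (x y : Option (ZMod q)) : ℤ :=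
  match x, y with
  | some x, some y => quadraticChar (ZMod q) (x - y)
  | none, none => 0
  | _, _ => 1

private def dlt {q : ℕ} (x y : Option (ZMod q)) : ℤ := if x = y then 1 else 0

private noncomputable def dbl {q : ℕ} [Fact q.Prime] (x y : Option (ZMod q) × Bool) : ℤ :=
  match x, y with
  | (i, false), (j, false) => conf i j + dlt i j
  | (i, false), (j, true) => conf i j - dlt i j
  | (i, true), (j, false) => conf i j - dlt i j
  | (i, true), (j, true) => -conf i j - dlt i j

theorem symHad_double {q : ℕ} (hp : q.Prime) (h4 : q % 4 = 1) : SymHad (2 * (q + 1)) := by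
  have : Fact q.Prime := ⟨hp⟩
  have hq2 : q ≠ 2 := by rintro rfl; omega
  have hrc : ringChar (ZMod q) ≠ 2 := by rw [ZMod.ringChar_zmod_n]; exact hq2
  have hneg1 : quadraticChar (ZMod q) (-1) = 1 := by
    rw [quadraticChar_neg_one hrc, ZMod.card]
    exact ZMod.χ₄_nat_one_mod_four h4
  have hneg : ∀ d : ZMod q, quadraticChar (ZMod q) (-d) = quadraticChar (ZMod q) d := by
    intro d
    rw [neg_eq_neg_one_mul, map_mul, hneg1, one_mul]
  have hsymC : ∀ i j : Option (ZMod q), conf i j = conf j i := by
    rintro (_ | x) (_ | y)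
    · rfl
    · rfl
    · rfl
    · show quadraticChar (ZMod q) (x - y) = quadraticChar (ZMod q) (y - x)
      rw [← neg_sub y x, hneg]
  have hsymD : ∀ i j : Option (ZMod q), dlt i j = dlt j i := by
    intro i j
    unfold dlt
    by_cases h : i = j
    · rw [if_pos h, if_pos h.symm]
    · rw [if_neg h, if_neg (fun h' => h h'.symm)]
  have hC0 : ∀ i : Option (ZMod q), conf i i = 0 := by
    rintro (_ | x)
    · rfl
    · show quadraticChar (ZMod q) (x - x) = 0
      rw [sub_self, quadraticChar_zero]
  have hpm : ∀ i j : Option (ZMod q), i ≠ j → conf i j = 1 ∨ conf i j = -1 := by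
    rintro (_ | x) (_ | y) h
    · exact absurd rfl h
    · exact Or.inl rfl
    · exact Or.inl rfl
    · show quadraticChar (ZMod q) (x - y) = 1 ∨ quadraticChar (ZMod q) (x - y) = -1
      exact quadraticChar_dichotomy (sub_ne_zero.2 fun h' => h (by rw [h']))
  have hsumx : ∀ x : ZMod q, ∑ y : ZMod q, quadraticChar (ZMod q) (x - y) = 0 := by
    intro x
    rw [← quadraticChar_sum_zero hrc]
    exact Equiv.sum_comp (Equiv.subLeft x) (fun u => quadraticChar (ZMod q) u)
  have hO : ∀ i j : Option (ZMod q), i ≠ j → ∑ k, conf i k * conf j k = 0 := by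
    rintro (_ | x) (_ | x') hne
    · exact absurd rfl hne
    · rw [Fintype.sum_option]
      show (0 : ℤ) * 1 + ∑ y : ZMod q, 1 * quadraticChar (ZMod q) (x' - y) = 0
      simp only [one_mul]
      rw [hsumx x']
      norm_num
    · rw [Fintype.sum_option]
      show (1 : ℤ) * 0 + ∑ y : ZMod q, quadraticChar (ZMod q) (x - y) * 1 = 0
      simp only [mul_one]
      rw [hsumx x]
      norm_num
    · rw [Fintype.sum_option]
      show (1 : ℤ) * 1 + ∑ y : ZMod q, quadraticChar (ZMod q) (x - y) *
        quadraticChar (ZMod q) (x' - y) = 0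
      have hd : x' - x ≠ 0 := by
        intro h
        exact hne (by rw [sub_eq_zero.1 h])
      have h1 : ∑ y : ZMod q, quadraticChar (ZMod q) (x - y) * quadraticChar (ZMod q) (x' - y) =
          ∑ u : ZMod q, quadraticChar (ZMod q) u * quadraticChar (ZMod q) (u + (x' - x)) := by
        rw [← Equiv.sum_comp (Equiv.subLeft x)
          (fun u => quadraticChar (ZMod q) u * quadraticChar (ZMod q) (u + (x' - x)))]
        refine Finset.sum_congr rfl fun y _ => ?_
        show quadraticChar (ZMod q) (x - y) * quadraticChar (ZMod q) (x' - y) =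
          quadraticChar (ZMod q) (x - y) * quadraticChar (ZMod q) (x - y + (x' - x))
        have e : x - y + (x' - x) = x' - y := by ring
        rw [e]
      rw [h1, charSum hq2 hd]
      norm_num
  have hDD : ∀ i j : Option (ZMod q), i ≠ j → ∑ k, dlt i k * dlt j k = 0 := by
    intro i j hij
    refine Finset.sum_eq_zero fun k _ => ?_
    unfold dlt
    by_cases h : i = k
    · have h' : j ≠ k := fun h' => hij (h.trans h'.symm)
      rw [if_neg h', mul_zero]
    · rw [if_neg h, zero_mul]
  have hCD : ∀ i j : Option (ZMod q), ∑ k, conf i k * dlt j k = conf i j := by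
    intro i j
    rw [Finset.sum_eq_single j]
    · unfold dlt
      rw [if_pos rfl, mul_one]
    · intro k _ hk
      unfold dlt
      rw [if_neg (fun h => hk h.symm), mul_zero]
    · intro h
      exact absurd (mem_univ j) h
  refine symHad_of_type (V := Option (ZMod q) × Bool)
    (by rw [Fintype.card_prod, Fintype.card_option, ZMod.card, Fintype.card_bool, mul_comm])
    (H := dbl) ⟨?_, ?_, ?_⟩
  · rintro ⟨i, a⟩ ⟨j, b⟩
    have h0 : ∀ e f : ℤ, (e = 1 ∨ e = -1) → (f = 1 ∨ f = -1) →
        e * conf i j + f * dlt i j = 1 ∨ e * conf i j + f * dlt i j = -1 := by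
      intro e f he hf
      by_cases h : i = j
      · have h1 : dlt i j = 1 := by
          unfold dlt
          rw [if_pos h]
        have h2 : conf i j = 0 := by
          rw [h]
          exact hC0 j
        rw [h1, h2]
        rcases hf with hf | hf <;> rw [hf] <;> norm_num
      · have h1 : dlt i j = 0 := by
          unfold dlt
          rw [if_neg h]
        rw [h1]
        rcases hpm i j h with h2 | h2 <;> rcases he with he | he <;> rw [h2, he] <;> norm_num
    rcases a with _ | _ <;> rcases b with _ | _
    · have h1 := h0 1 1 (Or.inl rfl) (Or.inl rfl)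
      have e : dbl ((i, false) : Option (ZMod q) × Bool) (j, false) = 1 * conf i j + 1 * dlt i j := by
        show conf i j + dlt i j = _
        ring
      rw [e]
      exact h1
    · have h1 := h0 1 (-1) (Or.inl rfl) (Or.inr rfl)
      have e : dbl ((i, false) : Option (ZMod q) × Bool) (j, true) =
          1 * conf i j + (-1) * dlt i j := by
        show conf i j - dlt i j = _
        ring
      rw [e]
      exact h1
    · have h1 := h0 1 (-1) (Or.inl rfl) (Or.inr rfl)
      have e : dbl ((i, true) : Option (ZMod q) × Bool) (j, false) =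
          1 * conf i j + (-1) * dlt i j := by
        show conf i j - dlt i j = _
        ring
      rw [e]
      exact h1
    · have h1 := h0 (-1) (-1) (Or.inr rfl) (Or.inr rfl)
      have e : dbl ((i, true) : Option (ZMod q) × Bool) (j, true) =
          (-1) * conf i j + (-1) * dlt i j := by
        show -conf i j - dlt i j = _
        ring
      rw [e]
      exact h1
  · rintro ⟨i, a⟩ ⟨j, b⟩
    rcases a with _ | _ <;> rcases b with _ | _
    · show conf i j + dlt i j = conf j i + dlt j i
      rw [hsymC, hsymD]
    · show conf i j - dlt i j = conf j i - dlt j i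
      rw [hsymC, hsymD]
    · show conf i j - dlt i j = conf j i - dlt j i
      rw [hsymC, hsymD]
    · show -conf i j - dlt i j = -conf j i - dlt j i
      rw [hsymC, hsymD]
  · rintro ⟨i, a⟩ ⟨j, b⟩ hne
    rw [Fintype.sum_prod_type]
    simp only [Fintype.sum_bool]
    rcases a with _ | _ <;> rcases b with _ | _
    · have hij : i ≠ j := fun h => hne (by rw [h])
      have e : ∀ k : Option (ZMod q), dbl ((i, false) : Option (ZMod q) × Bool) (k, true) *
          dbl (j, false) (k, true) + dbl (i, false) (k, false) * dbl (j, false) (k, false) =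
          2 * (conf i k * conf j k) + 2 * (dlt i k * dlt j k) := by
        intro k
        show (conf i k - dlt i k) * (conf j k - dlt j k) +
          (conf i k + dlt i k) * (conf j k + dlt j k) = _
        ring
      rw [Finset.sum_congr rfl fun k _ => e k, Finset.sum_add_distrib, ← Finset.mul_sum,
        ← Finset.mul_sum, hO i j hij, hDD i j hij]
      norm_num
    · have e : ∀ k : Option (ZMod q), dbl ((i, false) : Option (ZMod q) × Bool) (k, true) *
          dbl (j, true) (k, true) + dbl (i, false) (k, false) * dbl (j, true) (k, false) =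
          (-2) * (conf i k * dlt j k) + 2 * (conf j k * dlt i k) := by
        intro k
        show (conf i k - dlt i k) * (-conf j k - dlt j k) +
          (conf i k + dlt i k) * (conf j k - dlt j k) = _
        ring
      rw [Finset.sum_congr rfl fun k _ => e k, Finset.sum_add_distrib, ← Finset.mul_sum,
        ← Finset.mul_sum, hCD i j, hCD j i, hsymC j i]
      ring
    · have e : ∀ k : Option (ZMod q), dbl ((i, true) : Option (ZMod q) × Bool) (k, true) *
          dbl (j, false) (k, true) + dbl (i, true) (k, false) * dbl (j, false) (k, false) =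
          2 * (conf i k * dlt j k) + (-2) * (conf j k * dlt i k) := by
        intro k
        show (-conf i k - dlt i k) * (conf j k - dlt j k) +
          (conf i k - dlt i k) * (conf j k + dlt j k) = _
        ring
      rw [Finset.sum_congr rfl fun k _ => e k, Finset.sum_add_distrib, ← Finset.mul_sum,
        ← Finset.mul_sum, hCD i j, hCD j i, hsymC j i]
      ring
    · have hij : i ≠ j := fun h => hne (by rw [h])
      have e : ∀ k : Option (ZMod q), dbl ((i, true) : Option (ZMod q) × Bool) (k, true) *
          dbl (j, true) (k, true) + dbl (i, true) (k, false) * dbl (j, true) (k, false) =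
          2 * (conf i k * conf j k) + 2 * (dlt i k * dlt j k) := by
        intro k
        show (-conf i k - dlt i k) * (-conf j k - dlt j k) +
          (conf i k - dlt i k) * (conf j k - dlt j k) = _
        ring
      rw [Finset.sum_congr rfl fun k _ => e k, Finset.sum_add_distrib, ← Finset.mul_sum,
        ← Finset.mul_sum, hO i j hij, hDD i j hij]
      norm_num

end ZS44129
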