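import Mathlib
import Pool.Agent.Work.MP_44129c_co.MF.Had

/-!
# MP_44129c_co/MF, module HadK (size S): Kronecker products

Proof.  On `Fin a × Fin b` (`symHad_of_type`) put `H (x, y) (x', y') = A x x' * B y y'`.
Entries `1` or `-1`, symmetric.  For `(x, y) ≠ (x', y')` the row product is
`∑_{(z, w)} A x z * B y w * (A x' z * B y' w) = (∑ z, A x z * A x' z) * (∑ w, B y w * B y' w)`
(`Fintype.sum_prod_type`, `Finset.sum_mul_sum`), and one of the factors is `0` as `x ≠ x'` or `y ≠ y'`.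
-/

set_option autoImplicit false

namespace ZS44129

open Finset

theorem symHad_mul {a b : ℕ} (hA : SymHad a) (hB : SymHad b) : SymHad (a * b) := by
  obtain ⟨A, hA⟩ := hA
  obtain ⟨B, hB⟩ := hB
  refine symHad_of_type (V := Fin a × Fin b) (by simp)
    (H := fun x y => A x.1 y.1 * B x.2 y.2) ⟨?_, ?_, ?_⟩
  · intro x y
    rcases hA.pm x.1 y.1 with h1 | h1 <;> rcases hB.pm x.2 y.2 with h2 | h2 <;> simp [h1, h2]
  · intro x y
    show A x.1 y.1 * B x.2 y.2 = A y.1 x.1 * B y.2 x.2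
    rw [hA.sym x.1 y.1, hB.sym x.2 y.2]
  · intro x y hxy
    have h1 : ∑ z : Fin a × Fin b, A x.1 z.1 * B x.2 z.2 * (A y.1 z.1 * B y.2 z.2) =
        (∑ z, A x.1 z * A y.1 z) * (∑ w, B x.2 w * B y.2 w) := by
      rw [Fintype.sum_prod_type, Finset.sum_mul_sum]
      refine Finset.sum_congr rfl fun z _ => Finset.sum_congr rfl fun w _ => ?_
      ring
    show ∑ z : Fin a × Fin b, A x.1 z.1 * B x.2 z.2 * (A y.1 z.1 * B y.2 z.2) = 0
    rw [h1]
    by_cases h : x.1 = y.1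
    · have h' : x.2 ≠ y.2 := fun h2 => hxy (Prod.ext h h2)
      rw [hB.orth _ _ h', mul_zero]
    · rw [hA.orth _ _ h, zero_mul]

end ZS44129
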