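import Mathlib
import Pool.Agent.Work.MP_44129c_co.MF.Had

/-!
# MP_44129c_co/MF, module HadM (size M): from a symmetric Hadamard matrix to a colouring

Proof.  `h = 0`: `mfs_zero`.  Let `h = 4 k`, `k ≥ 1`, and let `H` be symmetric Hadamard on `Fin h`, `o = 0 : Fin h`.
Replacing `H` by `-H` we may assume `H o o = 1`.  Put `A x y = H o x * H x y * H o y`: entries `1` or
`-1`, symmetric, `A o y = H o o * (H o y)^2 = 1`, and rows are orthogonal:
`∑_z A x z * A y z = H o x * H o y * ∑_z H x z * H y z * (H o z)^2 = 0` for `x ≠ y`.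
In particular `∑_z A x z = 0` for `x ≠ o` (row `o`).
Let `V = {x : Fin h // x ≠ o}` (cardinality `h - 1`; use `mfs_of_type`) and
`b x y = decide (A x y = 1)`.  Let `x ≠ y` in `V`, `e = A x y`, `ε = -e`.
`∑_z (1 + ε A x z)(1 + ε A y z) = h + 0 + 0 + 0 = 4 k`, and each term is `4` if
`A x z = A y z = ε` and `0` otherwise, so exactly `k` elements `z` of `Fin h` have
`A x z = A y z = ε`.  None of them is `x` (`A y x = e ≠ ε`) or `y`; at most one is `o`.  So at least
`k - 1` of them are in `V`, and they lie in `opp b x y` (`b x z = decide (ε = 1) ≠ decide (e = 1)`).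
`h / 4 - 1 = k - 1`.
-/

set_option autoImplicit false

namespace ZS44129

open Finset

private theorem term_id {a b e : ℤ} (ha : a = 1 ∨ a = -1) (hb : b = 1 ∨ b = -1)
    (he : e = 1 ∨ e = -1) :
    (1 + e * a) * (1 + e * b) = if a = e ∧ b = e then 4 else 0 := by
  rcases ha with rfl | rfl <;> rcases hb with rfl | rfl <;> rcases he with rfl | rfl <;> norm_num

private theorem pm_mul {a b : ℤ} (ha : a = 1 ∨ a = -1) (hb : b = 1 ∨ b = -1) :
    a * b = 1 ∨ a * b = -1 := by
  rcases ha with rfl | rfl <;> rcases hb with rfl | rfl <;> norm_num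

private theorem pm_sq {a : ℤ} (ha : a = 1 ∨ a = -1) : a * a = 1 := by
  rcases ha with rfl | rfl <;> norm_num

theorem mfs_of_symHad {h : ℕ} (hh : SymHad h) (h4 : h % 4 = 0) : MFs (h - 1) (h / 4 - 1) := by
  classical
  rcases Nat.eq_zero_or_pos h with h0 | hpos
  · subst h0
    exact mfs_zero 0
  obtain ⟨H, hH⟩ := hh
  set o : Fin h := ⟨0, hpos⟩ with ho
  set A : Fin h → Fin h → ℤ := fun x y => H o o * H o x * H x y * H o y with hA
  have pm : ∀ x y, A x y = 1 ∨ A x y = -1 := fun x y =>
    pm_mul (pm_mul (pm_mul (hH.pm _ _) (hH.pm _ _)) (hH.pm _ _)) (hH.pm _ _)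
  have sym : ∀ x y, A x y = A y x := by
    intro x y
    show H o o * H o x * H x y * H o y = H o o * H o y * H y x * H o x
    rw [hH.sym x y]
    ring
  have ho1 : ∀ y, A o y = 1 := by
    intro y
    show H o o * H o o * H o y * H o y = 1
    rw [pm_sq (hH.pm o o), one_mul, pm_sq (hH.pm o y)]
  have orth : ∀ x y, x ≠ y → ∑ z, A x z * A y z = 0 := by
    intro x y hxy
    have h1 : ∀ z, A x z * A y z = (H o x * H o y) * (H x z * H y z) := by
      intro z
      show (H o o * H o x * H x z * H o z) * (H o o * H o y * H y z * H o z) = _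
      have e1 := pm_sq (hH.pm o o)
      have e2 := pm_sq (hH.pm o z)
      linear_combination (H o x * H x z * H o z * H o y * H y z * H o z) * e1 +
        (H o x * H x z * H o y * H y z) * e2
    simp only [h1]
    rw [← Finset.mul_sum, hH.orth x y hxy, mul_zero]
  have row : ∀ x, x ≠ o → ∑ z, A x z = 0 := by
    intro x hx
    have h1 := orth x o hx
    simpa only [ho1, mul_one] using h1
  refine mfs_of_type (V := {x : Fin h // x ≠ o}) ?_ (fun x y => decide (A x.1 y.1 = 1)) ?_ ?_
  · rw [Fintype.card_subtype, Finset.filter_ne', Finset.card_erase_of_mem (mem_univ _),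
      Finset.card_univ, Fintype.card_fin]
  · intro x y
    show decide (A x.1 y.1 = 1) = decide (A y.1 x.1 = 1)
    rw [sym x.1 y.1]
  · intro x y hxy
    have hxy' : x.1 ≠ y.1 := fun h' => hxy (Subtype.ext h')
    set e : ℤ := A x.1 y.1 with he
    have hepm : -e = 1 ∨ -e = -1 := by
      rcases pm x.1 y.1 with h1 | h1
      · right; rw [he, h1]
      · left; rw [he, h1]; norm_num
    have hene : e ≠ -e := by
      rcases pm x.1 y.1 with h1 | h1 <;> rw [he, h1] <;> norm_num
    set S : Finset (Fin h) := univ.filter (fun z => A x.1 z = -e ∧ A y.1 z = -e) with hS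
    have hsum : ∑ z, (1 + (-e) * A x.1 z) * (1 + (-e) * A y.1 z) = (h : ℤ) := by
      have h1 : ∀ z, (1 + (-e) * A x.1 z) * (1 + (-e) * A y.1 z) =
          1 + (-e) * A x.1 z + (-e) * A y.1 z + e ^ 2 * (A x.1 z * A y.1 z) := fun z => by ring
      simp only [h1]
      rw [Finset.sum_add_distrib, Finset.sum_add_distrib, Finset.sum_add_distrib,
        ← Finset.mul_sum, ← Finset.mul_sum, ← Finset.mul_sum, row x.1 x.2, row y.1 y.2,
        orth x.1 y.1 hxy']
      simp
    have hcard : (h : ℤ) = 4 * (S.card : ℤ) := by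
      rw [← hsum]
      simp only [term_id (pm x.1 _) (pm y.1 _) hepm]
      rw [← Finset.sum_filter, Finset.sum_const, nsmul_eq_mul, ← hS]
      ring
    have hk : h / 4 - 1 ≤ (S.erase o).card := by
      have h1 := Finset.pred_card_le_card_erase (s := S) (a := o)
      omega
    refine hk.trans ?_
    rw [← Finset.card_map (Function.Embedding.subtype fun x : Fin h => x ≠ o)]
    refine Finset.card_le_card ?_
    intro z hz
    rw [Finset.mem_erase] at hz
    obtain ⟨hzo, hzS⟩ := hz
    rw [hS, Finset.mem_filter] at hzS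
    obtain ⟨-, h1, h2⟩ := hzS
    rw [Finset.mem_map]
    refine ⟨⟨z, hzo⟩, ?_, rfl⟩
    unfold opp
    rw [Finset.mem_filter]
    refine ⟨mem_univ _, ?_, ?_, ?_, ?_⟩
    · intro h'
      have h3 : z = x.1 := congrArg Subtype.val h'
      rw [h3, sym y.1 x.1] at h2
      exact hene h2
    · intro h'
      have h3 : z = y.1 := congrArg Subtype.val h'
      rw [h3] at h1
      exact hene h1
    · show decide (A x.1 z = 1) ≠ decide (A x.1 y.1 = 1)
      rw [h1, ← he]
      rcases pm x.1 y.1 with h3 | h3 <;> rw [← he] at h3 <;> rw [h3] <;> decide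
    · show decide (A y.1 z = 1) ≠ decide (A x.1 y.1 = 1)
      rw [h2, ← he]
      rcases pm x.1 y.1 with h3 | h3 <;> rw [← he] at h3 <;> rw [h3] <;> decide

end ZS44129
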