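import Mathlib
import Pool.Agent.Work.MP_44129c_co.MF.Basic
import Pool.Agent.Work.MP_44129c_co.MF.Twin
import Pool.Agent.Work.MP_44129c_co.MF.Del
import Pool.Agent.Work.MP_44129c_co.MF.Blow
import Pool.Agent.Work.MP_44129c_co.MF.PalP
import Pool.Agent.Work.MP_44129c_co.MF.PalQ
import Pool.Agent.Work.MP_44129c_co.MF.HadK
import Pool.Agent.Work.MP_44129c_co.MF.HadA
import Pool.Agent.Work.MP_44129c_co.MF.HadB
import Pool.Agent.Work.MP_44129c_co.MF.HadM
import Pool.Agent.Work.MP_44129c_co.MF.Table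

/-!
# MP_44129c_co/MF, module Table2 (helper8): certificates for 5 ≤ N < 1436

An entry for `N` is `(q, f, l)`: if `f = []` start with the Paley colouring of the prime `q`, else
with the colouring of the symmetric Hadamard matrix with the factors `f` (`0`: order `2`, a prime
`p = 3` mod 4: order `p + 1`, a prime `p = 1` mod 4: order `2 (p + 1)`); then apply the steps
`l` (`0` = twin, `1` = deletion, `a ≥ 2` = blow-up with factor `a`).
-/

set_option autoImplicit false

namespace ZS44129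

open Finset

/-- trial division, correct for `3 ≤ q < 1444`. -/
def isPr2 (q : ℕ) : Bool :=
  decide (3 ≤ q) && decide (q < 1444) &&
    (List.range 36).all (fun d => decide (q ≤ d + 2) || !decide (q % (d + 2) = 0))

theorem prime_of_isPr2 {q : ℕ} (h : isPr2 q = true) : q.Prime ∧ 3 ≤ q := by
  unfold isPr2 at h
  simp only [Bool.and_eq_true, decide_eq_true_eq, List.all_eq_true, List.mem_range,
    Bool.or_eq_true, Bool.not_eq_true', decide_eq_false_iff_not] at h
  obtain ⟨⟨h3, h7⟩, h⟩ := h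
  refine ⟨?_, h3⟩
  by_contra hnp
  have h1 : (q.minFac) ^ 2 ≤ q := Nat.minFac_sq_le_self (by omega) hnp
  have h2 : 2 ≤ q.minFac := (Nat.minFac_prime (by omega)).two_le
  have h4 : q.minFac < 38 := by nlinarith
  have h5 : q.minFac ∣ q := Nat.minFac_dvd q
  have h6 : q.minFac < q := by nlinarith
  rcases h (q.minFac - 2) (by omega) with h8 | h8
  · omega
  · apply h8
    have : q.minFac - 2 + 2 = q.minFac := by omega
    rw [this]
    exact Nat.mod_eq_zero_of_dvd h5

/-- the order of a list of factors. -/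
def hadO (f : List ℕ) : ℕ :=
  f.foldl (fun a c => a * (if c = 0 then 2 else if c % 4 = 3 then c + 1 else 2 * (c + 1))) 1

theorem symHad_one : SymHad 1 := by
  refine ⟨fun _ _ => 1, ?_, ?_, ?_⟩ <;> decide

theorem symHad_foldl (f : List ℕ) (hf : ∀ c ∈ f, c = 0 ∨ isPr2 c = true) : ∀ a, SymHad a →
    SymHad (f.foldl (fun a c => a * (if c = 0 then 2 else if c % 4 = 3 then c + 1
      else 2 * (c + 1))) a) := by
  induction f with
  | nil => intro a ha; exact ha
  | cons c f ih =>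
    intro a ha
    refine ih (fun x hx => hf x (List.mem_cons_of_mem _ hx)) _ ?_
    refine symHad_mul ha ?_
    split_ifs with h0 h3
    · exact symHad_two
    · rcases hf c List.mem_cons_self with h | h
      · exact absurd h h0
      · exact symHad_prime (prime_of_isPr2 h).1 h3
    · rcases hf c List.mem_cons_self with h | h
      · exact absurd h h0
      · obtain ⟨hp, h3'⟩ := prime_of_isPr2 h
        have hodd : c % 2 = 1 := hp.eq_two_or_odd.resolve_left (by omega)
        exact symHad_double hp (by omega)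

/-- start of a certificate. -/
def bas (e : ℕ × List ℕ × List ℕ) : ℕ × ℕ :=
  if e.2.1.isEmpty = true then (e.1, if e.1 % 4 = 1 then (e.1 - 1) / 4 else (e.1 - 3) / 4)
  else (hadO e.2.1 - 1, hadO e.2.1 / 4 - 1)

/-- evaluation of a certificate. -/
def evd (e : ℕ × List ℕ × List ℕ) : ℕ × ℕ := e.2.2.foldl stp (bas e)

/-- the start is fine. -/
def okB (e : ℕ × List ℕ × List ℕ) : Bool :=
  if e.2.1.isEmpty = true then isPr2 e.1
  else e.2.1.all (fun c => decide (c = 0) || isPr2 c) && decide (hadO e.2.1 % 4 = 0) &&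
    decide (3 ≤ hadO e.2.1)

theorem mfs_evd {e : ℕ × List ℕ × List ℕ} (h : okB e = true) : MFs (evd e).1 (evd e).2 := by
  unfold okB at h
  by_cases hf : e.2.1.isEmpty = true
  · rw [if_pos hf] at h
    obtain ⟨hp, h3⟩ := prime_of_isPr2 h
    have hodd : e.1 % 2 = 1 := hp.eq_two_or_odd.resolve_left (by omega)
    have hb : bas e = (e.1, if e.1 % 4 = 1 then (e.1 - 1) / 4 else (e.1 - 3) / 4) := by
      unfold bas; rw [if_pos hf]
    unfold evd
    rw [hb]
    refine (mfs_foldl e.2.2 _ (by simp only; omega) ?_).2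
    simp only
    split_ifs with h4
    · exact mfs_paley hp h4
    · exact mfs_sumPaley hp (by omega)
  · rw [if_neg hf] at h
    simp only [Bool.and_eq_true, decide_eq_true_eq, List.all_eq_true, Bool.or_eq_true] at h
    obtain ⟨⟨h1, h2⟩, h3⟩ := h
    have hb : bas e = (hadO e.2.1 - 1, hadO e.2.1 / 4 - 1) := by
      unfold bas; rw [if_neg hf]
    unfold evd
    rw [hb]
    refine (mfs_foldl e.2.2 _ (by simp only; omega) ?_).2
    exact mfs_of_symHad (symHad_foldl e.2.1 h1 1 symHad_one) h2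

/-- what is checked of the value `F` for `N`. -/
def okG (N F : ℕ) : Bool :=
  (decide (N ≤ 4 * F + 6) || (decide (79 ≤ F) && decide (19 * (N - 5 - 4 * F) ≤ F + 1)) ||
    (decide (N = 155) && decide (F = 37)) || (decide (N = 171) && decide (F = 41)) ||
    (decide (187 ≤ N) && decide (N ≤ 189) && decide (F = 45))) &&
    (decide (N < 718) || decide (1077 ≤ N) || decide (19 * (N + 1 - 4 * F) ≤ F))

/-- what is checked of an entry. -/
def okH (N : ℕ) (e : ℕ × List ℕ × List ℕ) : Bool :=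
  okB e && decide ((evd e).1 = N) && okG N (evd e).2

/-- entries 5, ... -/
def ub0 : List (ℕ × List ℕ × List ℕ) :=
  [(5, [], []), (5, [], [0]), (7, [], []), (7, [], [0]), (7, [], [0, 0]), (5, [], [2]), (11,
  [], []), (11, [], [0]), (13, [], []), (13, [], [0]), (0, [0, 7], []), (0, [0, 7], [0]), (17,
  [], []), (17, [], [0]), (19, [], []), (19, [], [0]), (19, [], [0, 0]), (19, [], [0, 0, 0]),
  (23, [], []), (23, [], [0]), (23, [], [0, 0]), (13, [], [2]), (0, [13], []), (0, [13], [0]),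
  (29, [], []), (29, [], [0]), (31, [], []), (31, [], [0]), (31, [], [0, 0]), (17, [], [2]),
  (0, [17], []), (0, [17], [0]), (37, [], []), (37, [], [0]), (0, [0, 19], []), (0, [0, 19],
  [0]), (41, [], []), (41, [], [0]), (43, [], []), (43, [], [0]), (43, [], [0, 0]), (43, [],
  [0, 0, 0]), (47, [], []), (47, [], [0]), (47, [], [0, 0]), (47, [], [0, 0, 0]), (17, [],
  [3]), (53, [], [1]), (53, [], []), (53, [], [0]), (0, [0, 13], []), (0, [0, 13], [0]), (0,
  [0, 13], [0, 0]), (29, [], [2]), (59, [], []), (59, [], [0]), (61, [], []), (61, [], [0]),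
  (0, [0, 31], []), (0, [0, 31], [0]), (0, [0, 31], [0, 0]), (0, [0, 31], [0, 0, 0]), (67, [],
  []), (67, [], [0]), (67, [], [0, 0]), (67, [], [0, 0, 0]), (71, [], []), (71, [], [0]), (73,
  [], []), (73, [], [0]), (0, [37], []), (0, [37], [0]), (0, [37], [0, 0]), (0, [37], [0, 0,
  0]), (79, [], []), (79, [], [0]), (79, [], [0, 0]), (41, [], [2]), (83, [], []), (83, [],
  [0]), (83, [], [0, 0]), (83, [], [0, 0, 0]), (0, [0, 43], []), (0, [0, 43], [0]), (89, [],
  []), (89, [], [0]), (89, [], [0, 0]), (89, [], [0, 0, 0]), (89, [], [0, 0, 0, 0]), (89, [],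
  [0, 0, 0, 0, 0]), (0, [0, 47], []), (0, [0, 47], [0]), (97, [], []), (97, [], [0]), (97, [],
  [0, 0]), (97, [], [0, 0, 0]), (101, [], []), (101, [], [0]), (103, [], []), (103, [], [0]),
  (103, [], [0, 0]), (53, [], [2]), (107, [], []), (107, [], [0]), (109, [], []), (109, [],
  [0]), (0, [3, 13], []), (0, [3, 13], [0]), (113, [], []), (113, [], [0]), (113, [], [0, 0]),
  (113, [], [0, 0, 0]), (113, [], [0, 0, 0, 0]), (113, [], [0, 0, 0, 0, 0]), (0, [0, 59], []),
  (0, [0, 59], [0]), (0, [0, 59], [0, 0]), (61, [], [2]), (0, [61], []), (0, [61], [0]), (0,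
  [61], [0, 0]), (0, [61], [0, 0, 0]), (127, [], []), (127, [], [0]), (127, [], [0, 0]), (127,
  [], [0, 0, 0]), (131, [], []), (131, [], [0]), (131, [], [0, 0]), (131, [], [0, 0, 0]), (0,
  [0, 67], []), (0, [0, 67], [0]), (137, [], []), (137, [], [0]), (139, [], []), (139, [],
  [0]), (139, [], [0, 0]), (139, [], [0, 0, 0]), (0, [0, 71], []), (0, [0, 71], [0]), (0, [0,
  71], [0, 0]), (73, [], [2]), (0, [73], []), (0, [73], [0]), (149, [], []), (149, [], [0]),
  (151, [], []), (151, [], [0]), (151, [], [0, 0]), (151, [], [0, 0, 0]), (151, [], [0, 0, 0,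
  0]), (157, [], [1]), (157, [], []), (157, [], [0]), (0, [0, 79], []), (0, [0, 79], [0]), (0,
  [0, 79], [0, 0]), (0, [0, 79], [0, 0, 0]), (163, [], [])]

/-- entries 164, ... -/
def ub1 : List (ℕ × List ℕ × List ℕ) :=
  [(163, [], [0]), (163, [], [0, 0]), (163, [], [0, 0, 0]), (167, [], []), (167, [], [0]),
  (167, [], [0, 0]), (167, [], [0, 0, 0]), (167, [], [0, 0, 0, 0]), (173, [], [1]), (173, [],
  []), (173, [], [0]), (0, [3, 43], []), (0, [3, 43], [0]), (0, [3, 43], [0, 0]), (89, [],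
  [2]), (179, [], []), (179, [], [0]), (181, [], []), (181, [], [0]), (181, [], [0, 0]), (181,
  [], [0, 0, 0]), (181, [], [0, 0, 0, 0]), (181, [], [0, 0, 0, 0, 0]), (181, [], [0, 0, 0, 0,
  0, 0]), (181, [], [0, 0, 0, 0, 0, 0, 0]), (181, [], [0, 0, 0, 0, 0, 0, 0, 0]), (191, [],
  [1]), (191, [], []), (191, [], [0]), (193, [], []), (193, [], [0]), (0, [97], []), (0, [97],
  [0]), (197, [], []), (197, [], [0]), (199, [], []), (199, [], [0]), (199, [], [0, 0]), (101,
  [], [2]), (0, [101], []), (0, [101], [0]), (0, [101], [0, 0]), (0, [101], [0, 0, 0]), (0,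
  [0, 103], []), (0, [0, 103], [0]), (0, [0, 103], [0, 0]), (0, [0, 103], [0, 0, 0]), (211,
  [], []), (211, [], [0]), (211, [], [0, 0]), (211, [], [0, 0, 0]), (0, [0, 107], []), (0, [0,
  107], [0]), (0, [0, 107], [0, 0]), (109, [], [2]), (0, [109], []), (0, [109], [0]), (0,
  [109], [0, 0]), (0, [109], [0, 0, 0]), (223, [], []), (223, [], [0]), (223, [], [0, 0]),
  (113, [], [2]), (227, [], []), (227, [], [0]), (229, [], []), (229, [], [0]), (229, [], [0,
  0]), (229, [], [0, 0, 0]), (233, [], []), (233, [], [0]), (233, [], [0, 0]), (233, [], [0,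
  0, 0]), (233, [], [0, 0, 0, 0]), (233, [], [0, 0, 0, 0, 0]), (239, [], []), (239, [], [0]),
  (241, [], []), (241, [], [0]), (241, [], [0, 0]), (241, [], [0, 0, 0]), (241, [], [0, 0, 0,
  0]), (241, [], [0, 0, 0, 0, 0]), (0, [0, 61], []), (0, [0, 61], [0]), (0, [0, 61], [0, 0]),
  (0, [0, 61], [0, 0, 0]), (251, [], []), (251, [], [0]), (251, [], [0, 0]), (251, [], [0, 0,
  0]), (0, [0, 127], []), (0, [0, 127], [0]), (257, [], []), (257, [], [0]), (257, [], [0,
  0]), (257, [], [0, 0, 0]), (257, [], [0, 0, 0, 0]), (257, [], [0, 0, 0, 0, 0]), (263, [],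
  []), (263, [], [0]), (263, [], [0, 0]), (263, [], [0, 0, 0]), (89, [], [3]), (269, [], [1]),
  (269, [], []), (269, [], [0]), (271, [], []), (271, [], [0]), (271, [], [0, 0]), (137, [],
  [2]), (0, [137], []), (0, [137], [0]), (277, [], []), (277, [], [0]), (0, [0, 139], []), (0,
  [0, 139], [0]), (281, [], []), (281, [], [0]), (283, [], []), (283, [], [0]), (283, [], [0,
  0]), (283, [], [0, 0, 0]), (0, [3, 71], []), (0, [3, 71], [0]), (0, [3, 71], [0, 0]), (0,
  [3, 71], [0, 0, 0]), (97, [], [3]), (293, [], [1]), (293, [], []), (293, [], [0]), (0, [0,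
  73], []), (0, [0, 73], [0]), (0, [0, 73], [0, 0]), (149, [], [2]), (0, [149], []), (0,
  [149], [0]), (0, [149], [0, 0]), (0, [149], [0, 0, 0]), (0, [0, 151], []), (0, [0, 151],
  [0]), (0, [0, 151], [0, 0]), (0, [0, 151], [0, 0, 0]), (307, [], []), (307, [], [0]), (307,
  [], [0, 0]), (307, [], [0, 0, 0]), (311, [], []), (311, [], [0]), (313, [], []), (313, [],
  [0]), (0, [157], []), (0, [157], [0]), (317, [], []), (317, [], [0]), (0, [3, 79], []), (0,
  [3, 79], [0]), (0, [3, 79], [0, 0]), (0, [3, 79], [0, 0, 0])]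

/-- entries 323, ... -/
def ub2 : List (ℕ × List ℕ × List ℕ) :=
  [(0, [3, 79], [0, 0, 0, 0]), (0, [3, 79], [0, 0, 0, 0, 0]), (0, [3, 79], [0, 0, 0, 0, 0,
  0]), (0, [0, 163], [1]), (0, [0, 163], []), (0, [0, 163], [0]), (0, [0, 163], [0, 0]), (0,
  [0, 163], [0, 0, 0]), (331, [], []), (331, [], [0]), (331, [], [0, 0]), (331, [], [0, 0,
  0]), (0, [0, 167], []), (0, [0, 167], [0]), (337, [], []), (337, [], [0]), (337, [], [0,
  0]), (337, [], [0, 0, 0]), (337, [], [0, 0, 0, 0]), (337, [], [0, 0, 0, 0, 0]), (337, [],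
  [0, 0, 0, 0, 0, 0]), (337, [], [0, 0, 0, 0, 0, 0, 0]), (173, [], [2, 1]), (173, [], [2]),
  (347, [], []), (347, [], [0]), (349, [], []), (349, [], [0]), (0, [7, 43], []), (0, [7, 43],
  [0]), (353, [], []), (353, [], [0]), (353, [], [0, 0]), (353, [], [0, 0, 0]), (353, [], [0,
  0, 0, 0]), (353, [], [0, 0, 0, 0, 0]), (359, [], []), (359, [], [0]), (359, [], [0, 0]),
  (181, [], [2]), (0, [181], []), (0, [181], [0]), (0, [181], [0, 0]), (0, [181], [0, 0, 0]),
  (367, [], []), (367, [], [0]), (367, [], [0, 0]), (367, [], [0, 0, 0]), (367, [], [0, 0, 0,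
  0]), (373, [], [1]), (373, [], []), (373, [], [0]), (373, [], [0, 0]), (373, [], [0, 0, 0]),
  (373, [], [0, 0, 0, 0]), (373, [], [0, 0, 0, 0, 0]), (379, [], []), (379, [], [0]), (379,
  [], [0, 0]), (379, [], [0, 0, 0]), (383, [], []), (383, [], [0]), (383, [], [0, 0]), (193,
  [], [2]), (0, [193], []), (0, [193], [0]), (389, [], []), (389, [], [0]), (0, [0, 97], []),
  (0, [0, 97], [0]), (0, [0, 97], [0, 0]), (197, [], [2]), (0, [197], []), (0, [197], [0]),
  (397, [], []), (397, [], [0]), (0, [0, 199], []), (0, [0, 199], [0]), (401, [], []), (401,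
  [], [0]), (401, [], [0, 0]), (401, [], [0, 0, 0]), (401, [], [0, 0, 0, 0]), (401, [], [0, 0,
  0, 0, 0]), (0, [0, 101], []), (0, [0, 101], [0]), (409, [], []), (409, [], [0]), (409, [],
  [0, 0]), (409, [], [0, 0, 0]), (409, [], [0, 0, 0, 0]), (409, [], [0, 0, 0, 0, 0]), (0, [3,
  103], []), (0, [3, 103], [0]), (0, [3, 103], [0, 0]), (0, [3, 103], [0, 0, 0]), (419, [],
  []), (419, [], [0]), (421, [], []), (421, [], [0]), (0, [0, 211], []), (0, [0, 211], [0]),
  (0, [0, 211], [0, 0]), (0, [0, 211], [0, 0, 0]), (0, [0, 211], [0, 0, 0, 0]), (0, [0, 211],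
  [0, 0, 0, 0, 0]), (0, [0, 211], [0, 0, 0, 0, 0, 0]), (431, [], [1]), (431, [], []), (431,
  [], [0]), (433, [], []), (433, [], [0]), (433, [], [0, 0]), (433, [], [0, 0, 0]), (433, [],
  [0, 0, 0, 0]), (433, [], [0, 0, 0, 0, 0]), (439, [], []), (439, [], [0]), (439, [], [0, 0]),
  (439, [], [0, 0, 0]), (443, [], []), (443, [], [0]), (443, [], [0, 0]), (443, [], [0, 0,
  0]), (0, [0, 223], []), (0, [0, 223], [0]), (449, [], []), (449, [], [0]), (449, [], [0,
  0]), (449, [], [0, 0, 0]), (449, [], [0, 0, 0, 0]), (449, [], [0, 0, 0, 0, 0]), (0, [0,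
  227], []), (0, [0, 227], [0]), (457, [], []), (457, [], [0]), (0, [229], []), (0, [229],
  [0]), (461, [], []), (461, [], [0]), (463, [], []), (463, [], [0]), (463, [], [0, 0]), (233,
  [], [2]), (467, [], []), (467, [], [0]), (467, [], [0, 0]), (467, [], [0, 0, 0]), (157, [],
  [3]), (157, [], [3, 0]), (157, [], [3, 0, 0]), (157, [], [0, 3]), (157, [], [0, 3, 0]),
  (157, [], [0, 3, 0, 0]), (479, [], [1, 1]), (479, [], [1]), (479, [], []), (479, [], [0]),
  (479, [], [0, 0])]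

/-- entries 482, ... -/
def ub3 : List (ℕ × List ℕ × List ℕ) :=
  [(241, [], [2]), (0, [241], []), (0, [241], [0]), (0, [241], [0, 0]), (0, [241], [0, 0, 0]),
  (487, [], []), (487, [], [0]), (487, [], [0, 0]), (487, [], [0, 0, 0]), (491, [], []), (491,
  [], [0]), (491, [], [0, 0]), (491, [], [0, 0, 0]), (0, [3, 61], []), (0, [3, 61], [0]), (0,
  [3, 61], [0, 0]), (0, [3, 61], [0, 0, 0]), (499, [], []), (499, [], [0]), (499, [], [0, 0]),
  (499, [], [0, 0, 0]), (503, [], []), (503, [], [0]), (503, [], [0, 0]), (503, [], [0, 0,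
  0]), (503, [], [0, 0, 0, 0]), (509, [], [1]), (509, [], []), (509, [], [0]), (0, [3, 127],
  []), (0, [3, 127], [0]), (0, [3, 127], [0, 0]), (257, [], [2]), (0, [257], []), (0, [257],
  [0]), (0, [257], [0, 0]), (0, [257], [0, 0, 0]), (173, [], [3]), (521, [], [1]), (521, [],
  []), (521, [], [0]), (523, [], []), (523, [], [0]), (523, [], [0, 0]), (523, [], [0, 0, 0]),
  (0, [0, 263], []), (0, [0, 263], [0]), (0, [0, 263], [0, 0]), (0, [0, 263], [0, 0, 0]), (0,
  [0, 263], [0, 0, 0, 0]), (0, [0, 263], [0, 0, 0, 0, 0]), (0, [0, 263], [0, 0, 0, 0, 0, 0]),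
  (89, [], [6]), (89, [], [6, 0]), (269, [], [1, 2]), (269, [], [2, 1]), (269, [], [2]), (0,
  [269], []), (0, [269], [0]), (541, [], []), (541, [], [0]), (0, [0, 271], []), (0, [0, 271],
  [0]), (0, [0, 271], [0, 0]), (0, [0, 271], [0, 0, 0]), (547, [], []), (547, [], [0]), (547,
  [], [0, 0]), (547, [], [0, 0, 0]), (0, [0, 137], []), (0, [0, 137], [0]), (0, [0, 137], [0,
  0]), (277, [], [2]), (0, [277], []), (0, [277], [0]), (557, [], []), (557, [], [0]), (0, [3,
  139], []), (0, [3, 139], [0]), (0, [3, 139], [0, 0]), (281, [], [2]), (563, [], []), (563,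
  [], [0]), (563, [], [0, 0]), (563, [], [0, 0, 0]), (0, [0, 283], []), (0, [0, 283], [0]),
  (569, [], []), (569, [], [0]), (571, [], []), (571, [], [0]), (571, [], [0, 0]), (571, [],
  [0, 0, 0]), (0, [7, 71], []), (0, [7, 71], [0]), (577, [], []), (577, [], [0]), (577, [],
  [0, 0]), (577, [], [0, 0, 0]), (577, [], [0, 0, 0, 0]), (577, [], [0, 0, 0, 0, 0]), (577,
  [], [0, 0, 0, 0, 0, 0]), (577, [], [0, 0, 0, 0, 0, 0, 0]), (293, [], [2, 1]), (293, [],
  [2]), (587, [], []), (587, [], [0]), (587, [], [0, 0]), (587, [], [0, 0, 0]), (0, [3, 73],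
  []), (0, [3, 73], [0]), (593, [], []), (593, [], [0]), (593, [], [0, 0]), (593, [], [0, 0,
  0]), (593, [], [0, 0, 0, 0]), (593, [], [0, 0, 0, 0, 0]), (599, [], []), (599, [], [0]),
  (601, [], []), (601, [], [0]), (601, [], [0, 0]), (601, [], [0, 0, 0]), (601, [], [0, 0, 0,
  0]), (601, [], [0, 0, 0, 0, 0]), (607, [], []), (607, [], [0]), (607, [], [0, 0]), (607, [],
  [0, 0, 0]), (607, [], [0, 0, 0, 0]), (613, [], [1]), (613, [], []), (613, [], [0]), (0, [0,
  307], []), (0, [0, 307], [0]), (617, [], []), (617, [], [0]), (619, [], []), (619, [], [0]),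
  (619, [], [0, 0]), (619, [], [0, 0, 0]), (0, [0, 311], []), (0, [0, 311], [0]), (0, [0,
  311], [0, 0]), (313, [], [2]), (0, [313], []), (0, [313], [0]), (0, [313], [0, 0]), (0,
  [313], [0, 0, 0]), (631, [], []), (631, [], [0]), (631, [], [0, 0]), (317, [], [2]), (0,
  [317], []), (0, [317], [0]), (0, [317], [0, 0]), (0, [317], [0, 0, 0]), (0, [7, 79], []),
  (0, [7, 79], [0])]

/-- entries 641, ... -/
def ub4 : List (ℕ × List ℕ × List ℕ) :=
  [(641, [], []), (641, [], [0]), (643, [], []), (643, [], [0]), (643, [], [0, 0]), (643, [],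
  [0, 0, 0]), (647, [], []), (647, [], [0]), (647, [], [0, 0]), (647, [], [0, 0, 0]), (647,
  [], [0, 0, 0, 0]), (653, [], [1]), (653, [], []), (653, [], [0]), (0, [3, 163], []), (0, [3,
  163], [0]), (0, [3, 163], [0, 0]), (0, [3, 163], [0, 0, 0]), (659, [], []), (659, [], [0]),
  (661, [], []), (661, [], [0]), (0, [0, 331], []), (0, [0, 331], [0]), (0, [0, 331], [0, 0]),
  (0, [0, 331], [0, 0, 0]), (0, [0, 331], [0, 0, 0, 0]), (0, [0, 331], [0, 0, 0, 0, 0]), (0,
  [0, 331], [0, 0, 0, 0, 0, 0]), (0, [3, 167], [1]), (0, [3, 167], []), (0, [3, 167], [0]),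
  (673, [], []), (673, [], [0]), (0, [337], []), (0, [337], [0]), (677, [], []), (677, [],
  [0]), (677, [], [0, 0]), (677, [], [0, 0, 0]), (677, [], [0, 0, 0, 0]), (677, [], [0, 0, 0,
  0, 0]), (683, [], []), (683, [], [0]), (683, [], [0, 0]), (683, [], [0, 0, 0]), (229, [],
  [3]), (229, [], [3, 0]), (229, [], [3, 0, 0]), (691, [], [1]), (691, [], []), (691, [],
  [0]), (691, [], [0, 0]), (691, [], [0, 0, 0]), (0, [0, 347], []), (0, [0, 347], [0]), (0,
  [0, 347], [0, 0]), (349, [], [2]), (0, [349], []), (0, [349], [0]), (701, [], []), (701, [],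
  [0]), (0, [0, 7, 43], []), (0, [0, 7, 43], [0]), (0, [0, 7, 43], [0, 0]), (353, [], [2]),
  (0, [353], []), (0, [353], [0]), (709, [], []), (709, [], [0]), (709, [], [0, 0]), (709, [],
  [0, 0, 0]), (709, [], [0, 0, 0, 0]), (709, [], [0, 0, 0, 0, 0]), (709, [], [0, 0, 0, 0, 0,
  0]), (709, [], [0, 0, 0, 0, 0, 0, 0]), (709, [], [0, 0, 0, 0, 0, 0, 0, 0]), (719, [], [1]),
  (719, [], []), (719, [], [0]), (719, [], [0, 0]), (719, [], [0, 0, 0]), (241, [], [3]),
  (181, [], [4]), (181, [], [4, 0]), (727, [], [1]), (727, [], []), (727, [], [0]), (727, [],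
  [0, 0]), (727, [], [0, 0, 0]), (727, [], [0, 0, 0, 0]), (733, [], [1]), (733, [], []), (733,
  [], [0]), (0, [0, 367], []), (0, [0, 367], [0]), (0, [0, 367], [0, 0]), (0, [0, 367], [0, 0,
  0]), (739, [], []), (739, [], [0]), (739, [], [0, 0]), (739, [], [0, 0, 0]), (743, [], []),
  (743, [], [0]), (743, [], [0, 0]), (373, [], [2]), (0, [373], []), (0, [373], [0]), (0,
  [373], [0, 0]), (0, [373], [0, 0, 0]), (751, [], []), (751, [], [0]), (751, [], [0, 0]),
  (751, [], [0, 0, 0]), (751, [], [0, 0, 0, 0]), (757, [], [1]), (757, [], []), (757, [],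
  [0]), (0, [0, 379], []), (0, [0, 379], [0]), (761, [], []), (761, [], [0]), (761, [], [0,
  0]), (761, [], [0, 0, 0]), (761, [], [0, 0, 0, 0]), (761, [], [0, 0, 0, 0, 0]), (0, [0,
  383], []), (0, [0, 383], [0]), (769, [], []), (769, [], [0]), (769, [], [0, 0]), (769, [],
  [0, 0, 0]), (773, [], []), (773, [], [0]), (0, [0, 193], []), (0, [0, 193], [0]), (0, [0,
  193], [0, 0]), (389, [], [2]), (0, [389], []), (0, [389], [0]), (0, [389], [0, 0]), (0,
  [389], [0, 0, 0]), (0, [3, 97], []), (0, [3, 97], [0]), (0, [3, 97], [0, 0]), (0, [3, 97],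
  [0, 0, 0]), (787, [], []), (787, [], [0]), (787, [], [0, 0]), (787, [], [0, 0, 0]), (0, [0,
  197], []), (0, [0, 197], [0]), (0, [0, 197], [0, 0]), (397, [], [2]), (0, [397], []), (0,
  [397], [0]), (797, [], []), (797, [], [0]), (0, [3, 199], [])]

/-- entries 800, ... -/
def ub5 : List (ℕ × List ℕ × List ℕ) :=
  [(0, [3, 199], [0]), (0, [3, 199], [0, 0]), (401, [], [2]), (0, [401], []), (0, [401], [0]),
  (0, [401], [0, 0]), (0, [401], [0, 0, 0]), (269, [], [3]), (809, [], [1]), (809, [], []),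
  (809, [], [0]), (811, [], []), (811, [], [0]), (811, [], [0, 0]), (811, [], [0, 0, 0]), (0,
  [3, 101], []), (0, [3, 101], [0]), (0, [3, 101], [0, 0]), (409, [], [2]), (0, [409], []),
  (0, [409], [0]), (821, [], []), (821, [], [0]), (823, [], []), (823, [], [0]), (823, [], [0,
  0]), (823, [], [0, 0, 0]), (827, [], []), (827, [], [0]), (829, [], []), (829, [], [0]), (0,
  [7, 103], []), (0, [7, 103], [0]), (0, [7, 103], [0, 0]), (0, [7, 103], [0, 0, 0]), (0, [7,
  103], [0, 0, 0, 0]), (0, [7, 103], [0, 0, 0, 0, 0]), (0, [7, 103], [0, 0, 0, 0, 0, 0]),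
  (839, [], [1]), (839, [], []), (839, [], [0]), (839, [], [0, 0]), (421, [], [2]), (0, [421],
  []), (0, [421], [0]), (0, [421], [0, 0]), (0, [421], [0, 0, 0]), (0, [3, 211], []), (0, [3,
  211], [0]), (0, [3, 211], [0, 0]), (0, [3, 211], [0, 0, 0]), (0, [3, 211], [0, 0, 0, 0]),
  (853, [], [1]), (853, [], []), (853, [], [0]), (853, [], [0, 0]), (853, [], [0, 0, 0]),
  (857, [], []), (857, [], [0]), (859, [], []), (859, [], [0]), (859, [], [0, 0]), (859, [],
  [0, 0, 0]), (863, [], []), (863, [], [0]), (863, [], [0, 0]), (433, [], [2]), (0, [433],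
  []), (0, [433], [0]), (0, [433], [0, 0]), (0, [433], [0, 0, 0]), (0, [433], [0, 0, 0, 0]),
  (0, [433], [0, 0, 0, 0, 0]), (0, [433], [0, 0, 0, 0, 0, 0]), (0, [433], [0, 0, 0, 0, 0, 0,
  0]), (877, [], [1, 1]), (877, [], [1]), (877, [], []), (877, [], [0]), (0, [0, 439], []),
  (0, [0, 439], [0]), (881, [], []), (881, [], [0]), (883, [], []), (883, [], [0]), (883, [],
  [0, 0]), (883, [], [0, 0, 0]), (887, [], []), (887, [], [0]), (887, [], [0, 0]), (887, [],
  [0, 0, 0]), (887, [], [0, 0, 0, 0]), (887, [], [0, 0, 0, 0, 0]), (887, [], [0, 0, 0, 0, 0,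
  0]), (0, [3, 223], [1]), (0, [3, 223], []), (0, [3, 223], [0]), (0, [3, 223], [0, 0]), (449,
  [], [2]), (0, [449], []), (0, [449], [0]), (0, [449], [0, 0]), (0, [449], [0, 0, 0]), (0,
  [449], [0, 0, 0, 0]), (0, [449], [0, 0, 0, 0, 0]), (181, [], [5]), (907, [], [1]), (907, [],
  []), (907, [], [0]), (907, [], [0, 0]), (907, [], [0, 0, 0]), (911, [], []), (911, [], [0]),
  (911, [], [0, 0]), (457, [], [2]), (0, [457], []), (0, [457], [0]), (0, [457], [0, 0]), (0,
  [457], [0, 0, 0]), (919, [], []), (919, [], [0]), (919, [], [0, 0]), (461, [], [2]), (0,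
  [461], []), (0, [461], [0]), (0, [461], [0, 0]), (0, [461], [0, 0, 0]), (0, [0, 463], []),
  (0, [0, 463], [0]), (929, [], []), (929, [], [0]), (929, [], [0, 0]), (929, [], [0, 0, 0]),
  (929, [], [0, 0, 0, 0]), (929, [], [0, 0, 0, 0, 0]), (0, [0, 467], []), (0, [0, 467], [0]),
  (937, [], []), (937, [], [0]), (937, [], [0, 0]), (937, [], [0, 0, 0]), (941, [], []), (941,
  [], [0]), (941, [], [0, 0]), (941, [], [0, 0, 0]), (941, [], [0, 0, 0, 0]), (941, [], [0, 0,
  0, 0, 0]), (947, [], []), (947, [], [0]), (947, [], [0, 0]), (947, [], [0, 0, 0]), (317, [],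
  [3]), (953, [], [1]), (953, [], []), (953, [], [0]), (953, [], [0, 0]), (953, [], [0, 0,
  0]), (953, [], [0, 0, 0, 0]), (953, [], [0, 0, 0, 0, 0])]

/-- entries 959, ... -/
def ub6 : List (ℕ × List ℕ × List ℕ) :=
  [(0, [0, 479], []), (0, [0, 479], [0]), (0, [0, 479], [0, 0]), (0, [0, 479], [0, 0, 0]), (0,
  [0, 479], [0, 0, 0, 0]), (241, [], [4]), (193, [], [5]), (967, [], [1]), (967, [], []),
  (967, [], [0]), (967, [], [0, 0]), (967, [], [0, 0, 0]), (971, [], []), (971, [], [0]),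
  (971, [], [0, 0]), (971, [], [0, 0, 0]), (0, [0, 487], []), (0, [0, 487], [0]), (977, [],
  []), (977, [], [0]), (977, [], [0, 0]), (977, [], [0, 0, 0]), (977, [], [0, 0, 0, 0]), (977,
  [], [0, 0, 0, 0, 0]), (983, [], []), (983, [], [0]), (983, [], [0, 0]), (983, [], [0, 0,
  0]), (983, [], [0, 0, 0, 0]), (983, [], [0, 0, 0, 0, 0]), (983, [], [0, 0, 0, 0, 0, 0]),
  (991, [], [1]), (991, [], []), (991, [], [0]), (991, [], [0, 0]), (991, [], [0, 0, 0]),
  (991, [], [0, 0, 0, 0]), (997, [], [1]), (997, [], []), (997, [], [0]), (0, [0, 499], []),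
  (0, [0, 499], [0]), (0, [0, 499], [0, 0]), (0, [0, 499], [0, 0, 0]), (0, [0, 499], [0, 0, 0,
  0]), (0, [0, 499], [0, 0, 0, 0, 0]), (0, [0, 499], [0, 0, 0, 0, 0, 0]), (0, [0, 503], [1]),
  (0, [0, 503], []), (0, [0, 503], [0]), (1009, [], []), (1009, [], [0]), (1009, [], [0, 0]),
  (1009, [], [0, 0, 0]), (1013, [], []), (1013, [], [0]), (1013, [], [0, 0]), (1013, [], [0,
  0, 0]), (1013, [], [0, 0, 0, 0]), (509, [], [2]), (1019, [], []), (1019, [], [0]), (1021,
  [], []), (1021, [], [0]), (0, [7, 127], []), (0, [7, 127], [0]), (0, [7, 127], [0, 0]), (0,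
  [7, 127], [0, 0, 0]), (0, [7, 127], [0, 0, 0, 0]), (257, [], [4]), (257, [], [4, 0]), (1031,
  [], [1]), (1031, [], []), (1031, [], [0]), (1033, [], []), (1033, [], [0]), (1033, [], [0,
  0]), (1033, [], [0, 0, 0]), (1033, [], [0, 0, 0, 0]), (1033, [], [0, 0, 0, 0, 0]), (1039,
  [], []), (1039, [], [0]), (1039, [], [0, 0]), (521, [], [2]), (0, [521], []), (0, [521],
  [0]), (0, [521], [0, 0]), (0, [521], [0, 0, 0]), (0, [0, 523], []), (0, [0, 523], [0]),
  (1049, [], []), (1049, [], [0]), (1051, [], []), (1051, [], [0]), (1051, [], [0, 0]), (1051,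
  [], [0, 0, 0]), (0, [3, 263], []), (0, [3, 263], [0]), (0, [3, 263], [0, 0]), (0, [3, 263],
  [0, 0, 0]), (353, [], [3]), (1061, [], [1]), (1061, [], []), (1061, [], [0]), (1063, [],
  []), (1063, [], [0]), (1063, [], [0, 0]), (1063, [], [0, 0, 0]), (1063, [], [0, 0, 0, 0]),
  (1069, [], [1]), (1069, [], []), (1069, [], [0]), (1069, [], [0, 0]), (1069, [], [0, 0, 0]),
  (1069, [], [0, 0, 0, 0]), (1069, [], [0, 0, 0, 0, 0]), (1069, [], [0, 0, 0, 0, 0, 0]), (269,
  [], [4]), (269, [], [4, 0]), (0, [0, 269], [1]), (0, [0, 269], []), (0, [0, 269], [0]), (0,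
  [0, 269], [0, 0]), (541, [], [2]), (0, [541], []), (0, [541], [0]), (0, [541], [0, 0]), (0,
  [541], [0, 0, 0]), (1087, [], []), (1087, [], [0]), (1087, [], [0, 0]), (1087, [], [0, 0,
  0]), (1091, [], []), (1091, [], [0]), (1093, [], []), (1093, [], [0]), (0, [0, 547], []),
  (0, [0, 547], [0]), (1097, [], []), (1097, [], [0]), (1097, [], [0, 0]), (1097, [], [0, 0,
  0]), (1097, [], [0, 0, 0, 0]), (1097, [], [0, 0, 0, 0, 0]), (1103, [], []), (1103, [], [0]),
  (1103, [], [0, 0]), (1103, [], [0, 0, 0]), (1103, [], [0, 0, 0, 0]), (1109, [], [1]), (1109,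
  [], []), (1109, [], [0]), (0, [0, 277], []), (0, [0, 277], [0]), (0, [0, 277], [0, 0]),
  (557, [], [2]), (0, [557], []), (0, [557], [0]), (1117, [], [])]

/-- entries 1118, ... -/
def ub7 : List (ℕ × List ℕ × List ℕ) :=
  [(1117, [], [0]), (0, [7, 139], []), (0, [7, 139], [0]), (0, [7, 139], [0, 0]), (0, [7,
  139], [0, 0, 0]), (1123, [], []), (1123, [], [0]), (1123, [], [0, 0]), (1123, [], [0, 0,
  0]), (0, [0, 563], []), (0, [0, 563], [0]), (1129, [], []), (1129, [], [0]), (1129, [], [0,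
  0]), (1129, [], [0, 0, 0]), (1129, [], [0, 0, 0, 0]), (1129, [], [0, 0, 0, 0, 0]), (0, [3,
  283], []), (0, [3, 283], [0]), (0, [3, 283], [0, 0]), (569, [], [2]), (0, [569], []), (0,
  [569], [0]), (0, [569], [0, 0]), (0, [569], [0, 0, 0]), (0, [0, 571], []), (0, [0, 571],
  [0]), (0, [0, 571], [0, 0]), (0, [0, 571], [0, 0, 0]), (0, [0, 571], [0, 0, 0, 0]), (0, [0,
  571], [0, 0, 0, 0, 0]), (0, [0, 571], [0, 0, 0, 0, 0, 0]), (1151, [], [1]), (1151, [], []),
  (1151, [], [0]), (1153, [], []), (1153, [], [0]), (0, [577], []), (0, [577], [0]), (0,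
  [577], [0, 0]), (0, [577], [0, 0, 0]), (0, [577], [0, 0, 0, 0]), (0, [577], [0, 0, 0, 0,
  0]), (0, [577], [0, 0, 0, 0, 0, 0]), (1163, [], [1]), (1163, [], []), (1163, [], [0]),
  (1163, [], [0, 0]), (1163, [], [0, 0, 0]), (389, [], [3]), (389, [], [3, 0]), (389, [], [3,
  0, 0]), (1171, [], [1]), (1171, [], []), (1171, [], [0]), (1171, [], [0, 0]), (1171, [], [0,
  0, 0]), (0, [0, 587], []), (0, [0, 587], [0]), (0, [0, 587], [0, 0]), (0, [0, 587], [0, 0,
  0]), (0, [0, 587], [0, 0, 0, 0]), (1181, [], [1]), (1181, [], []), (1181, [], [0]), (0, [7,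
  73], []), (0, [7, 73], [0]), (0, [7, 73], [0, 0]), (593, [], [2]), (1187, [], []), (1187,
  [], [0]), (1187, [], [0, 0]), (1187, [], [0, 0, 0]), (397, [], [3]), (1193, [], [1]), (1193,
  [], []), (1193, [], [0]), (1193, [], [0, 0]), (1193, [], [0, 0, 0]), (1193, [], [0, 0, 0,
  0]), (1193, [], [0, 0, 0, 0, 0]), (0, [0, 599], []), (0, [0, 599], [0]), (1201, [], []),
  (1201, [], [0]), (0, [601], []), (0, [601], [0]), (0, [601], [0, 0]), (0, [601], [0, 0, 0]),
  (0, [601], [0, 0, 0, 0]), (0, [601], [0, 0, 0, 0, 0]), (0, [601], [0, 0, 0, 0, 0, 0]), (0,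
  [601], [0, 0, 0, 0, 0, 0, 0]), (1213, [], [1, 1]), (1213, [], [1]), (1213, [], []), (1213,
  [], [0]), (0, [0, 607], []), (0, [0, 607], [0]), (1217, [], []), (1217, [], [0]), (1217, [],
  [0, 0]), (1217, [], [0, 0, 0]), (1217, [], [0, 0, 0, 0]), (1217, [], [0, 0, 0, 0, 0]),
  (1223, [], []), (1223, [], [0]), (1223, [], [0, 0]), (613, [], [2]), (0, [613], []), (0,
  [613], [0]), (1229, [], []), (1229, [], [0]), (1231, [], []), (1231, [], [0]), (1231, [],
  [0, 0]), (617, [], [2]), (0, [617], []), (0, [617], [0]), (1237, [], []), (1237, [], [0]),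
  (0, [0, 619], []), (0, [0, 619], [0]), (0, [0, 619], [0, 0]), (0, [0, 619], [0, 0, 0]), (0,
  [0, 619], [0, 0, 0, 0]), (0, [0, 619], [0, 0, 0, 0, 0]), (0, [0, 619], [0, 0, 0, 0, 0, 0]),
  (0, [3, 311], [1]), (0, [3, 311], []), (0, [3, 311], [0]), (1249, [], []), (1249, [], [0]),
  (1249, [], [0, 0]), (1249, [], [0, 0, 0]), (1249, [], [0, 0, 0, 0]), (1249, [], [0, 0, 0, 0,
  0]), (0, [0, 313], []), (0, [0, 313], [0]), (0, [0, 313], [0, 0]), (0, [0, 313], [0, 0, 0]),
  (1259, [], []), (1259, [], [0]), (1259, [], [0, 0]), (1259, [], [0, 0, 0]), (0, [0, 631],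
  []), (0, [0, 631], [0]), (0, [0, 631], [0, 0]), (0, [0, 631], [0, 0, 0]), (0, [0, 631], [0,
  0, 0, 0]), (317, [], [4]), (317, [], [4, 0]), (0, [0, 317], [1]), (0, [0, 317], []), (0, [0,
  317], [0]), (0, [0, 317], [0, 0]), (0, [0, 317], [0, 0, 0]), (0, [0, 317], [0, 0, 0, 0]),
  (1277, [], [1])]

/-- entries 1277, ... -/
def ub8 : List (ℕ × List ℕ × List ℕ) :=
  [(1277, [], []), (1277, [], [0]), (1279, [], []), (1279, [], [0]), (1279, [], [0, 0]), (641,
  [], [2]), (1283, [], []), (1283, [], [0]), (1283, [], [0, 0]), (1283, [], [0, 0, 0]), (0,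
  [0, 643], []), (0, [0, 643], [0]), (1289, [], []), (1289, [], [0]), (1291, [], []), (1291,
  [], [0]), (1291, [], [0, 0]), (1291, [], [0, 0, 0]), (0, [0, 647], []), (0, [0, 647], [0]),
  (1297, [], []), (1297, [], [0]), (1297, [], [0, 0]), (1297, [], [0, 0, 0]), (1301, [], []),
  (1301, [], [0]), (1303, [], []), (1303, [], [0]), (1303, [], [0, 0]), (653, [], [2]), (1307,
  [], []), (1307, [], [0]), (1307, [], [0, 0]), (1307, [], [0, 0, 0]), (0, [7, 163], []), (0,
  [7, 163], [0]), (0, [7, 163], [0, 0]), (0, [7, 163], [0, 0, 0]), (0, [7, 163], [0, 0, 0,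
  0]), (0, [7, 163], [0, 0, 0, 0, 0]), (0, [7, 163], [0, 0, 0, 0, 0, 0]), (1319, [], [1]),
  (1319, [], []), (1319, [], [0]), (1321, [], []), (1321, [], [0]), (0, [661], []), (0, [661],
  [0]), (0, [661], [0, 0]), (0, [661], [0, 0, 0]), (1327, [], []), (1327, [], [0]), (1327, [],
  [0, 0]), (1327, [], [0, 0, 0]), (1327, [], [0, 0, 0, 0]), (1327, [], [0, 0, 0, 0, 0]),
  (1327, [], [0, 0, 0, 0, 0, 0]), (1327, [], [0, 0, 0, 0, 0, 0, 0]), (1327, [], [0, 0, 0, 0,
  0, 0, 0, 0]), (1327, [], [0, 0, 0, 0, 0, 0, 0, 0, 0]), (1327, [], [0, 0, 0, 0, 0, 0, 0, 0,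
  0, 0]), (1327, [], [0, 0, 0, 0, 0, 0, 0, 0, 0, 0, 0]), (1327, [], [0, 0, 0, 0, 0, 0, 0, 0,
  0, 0, 0, 0]), (0, [7, 167], [1, 1, 1]), (0, [7, 167], [1, 1]), (0, [7, 167], [1]), (0, [7,
  167], []), (0, [7, 167], [0]), (0, [7, 167], [0, 0]), (673, [], [2]), (0, [673], []), (0,
  [673], [0]), (0, [673], [0, 0]), (0, [673], [0, 0, 0]), (0, [0, 337], []), (0, [0, 337],
  [0]), (0, [0, 337], [0, 0]), (677, [], [2]), (0, [677], []), (0, [677], [0]), (0, [677], [0,
  0]), (0, [677], [0, 0, 0]), (0, [19, 67], []), (0, [19, 67], [0]), (1361, [], []), (1361,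
  [], [0]), (1361, [], [0, 0]), (1361, [], [0, 0, 0]), (1361, [], [0, 0, 0, 0]), (1361, [],
  [0, 0, 0, 0, 0]), (1367, [], []), (1367, [], [0]), (1367, [], [0, 0]), (1367, [], [0, 0,
  0]), (457, [], [3]), (1373, [], [1]), (1373, [], []), (1373, [], [0]), (1373, [], [0, 0]),
  (1373, [], [0, 0, 0]), (1373, [], [0, 0, 0, 0]), (1373, [], [0, 0, 0, 0, 0]), (1373, [], [0,
  0, 0, 0, 0, 0]), (1381, [], [1]), (1381, [], []), (1381, [], [0]), (0, [0, 691], []), (0,
  [0, 691], [0]), (0, [0, 691], [0, 0]), (0, [0, 691], [0, 0, 0]), (0, [0, 691], [0, 0, 0,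
  0]), (0, [0, 691], [0, 0, 0, 0, 0]), (0, [0, 691], [0, 0, 0, 0, 0, 0]), (0, [3, 347], [1]),
  (0, [3, 347], []), (0, [3, 347], [0]), (0, [3, 347], [0, 0]), (0, [3, 347], [0, 0, 0]), (0,
  [3, 347], [0, 0, 0, 0]), (349, [], [4]), (349, [], [4, 0]), (1399, [], [1]), (1399, [], []),
  (1399, [], [0]), (1399, [], [0, 0]), (701, [], [2]), (0, [701], []), (0, [701], [0]), (0,
  [701], [0, 0]), (0, [701], [0, 0, 0]), (0, [31, 43], []), (0, [31, 43], [0]), (1409, [],
  []), (1409, [], [0]), (1409, [], [0, 0]), (1409, [], [0, 0, 0]), (1409, [], [0, 0, 0, 0]),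
  (1409, [], [0, 0, 0, 0, 0]), (0, [0, 353], []), (0, [0, 353], [0]), (0, [0, 353], [0, 0]),
  (709, [], [2]), (0, [709], []), (0, [709], [0]), (0, [709], [0, 0]), (0, [709], [0, 0, 0]),
  (1423, [], []), (1423, [], [0]), (1423, [], [0, 0]), (1423, [], [0, 0, 0]), (1427, [], []),
  (1427, [], [0]), (1429, [], []), (1429, [], [0]), (1429, [], [0, 0]), (1429, [], [0, 0, 0]),
  (1433, [], []), (1433, [], [0]), (1433, [], [0, 0])]

theorem ub0_ok : ∀ i < 159, okH (i + 5) (ub0.getD i (0, [], [])) = true := by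
  decide +kernel

theorem ub1_ok : ∀ i < 159, okH (i + 164) (ub1.getD i (0, [], [])) = true := by
  decide +kernel

theorem ub2_ok : ∀ i < 159, okH (i + 323) (ub2.getD i (0, [], [])) = true := by
  decide +kernel

theorem ub3_ok : ∀ i < 159, okH (i + 482) (ub3.getD i (0, [], [])) = true := by
  decide +kernel

theorem ub4_ok : ∀ i < 159, okH (i + 641) (ub4.getD i (0, [], [])) = true := by
  decide +kernel

theorem ub5_ok : ∀ i < 159, okH (i + 800) (ub5.getD i (0, [], [])) = true := by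
  decide +kernel

theorem ub6_ok : ∀ i < 159, okH (i + 959) (ub6.getD i (0, [], [])) = true := by
  decide +kernel

theorem ub7_ok : ∀ i < 159, okH (i + 1118) (ub7.getD i (0, [], [])) = true := by
  decide +kernel

theorem ub8_ok : ∀ i < 159, okH (i + 1277) (ub8.getD i (0, [], [])) = true := by
  decide +kernel

theorem table2 {N : ℕ} (h5 : 5 ≤ N) (h : N < 1436) : ∃ F, MFs N F ∧ okG N F = true := by
  have key : ∀ e : ℕ × List ℕ × List ℕ, okH N e = true → ∃ F, MFs N F ∧ okG N F = true := by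
    intro e he
    unfold okH at he
    simp only [Bool.and_eq_true, decide_eq_true_eq] at he
    refine ⟨(evd e).2, ?_, he.2⟩
    rw [← he.1.2]
    exact mfs_evd he.1.1
  have hc : (5 ≤ N ∧ N < 164) ∨
      (164 ≤ N ∧ N < 323) ∨
      (323 ≤ N ∧ N < 482) ∨
      (482 ≤ N ∧ N < 641) ∨
      (641 ≤ N ∧ N < 800) ∨
      (800 ≤ N ∧ N < 959) ∨
      (959 ≤ N ∧ N < 1118) ∨
      (1118 ≤ N ∧ N < 1277) ∨
      (1277 ≤ N ∧ N < 1436) := by omega
  rcases hc with ⟨h1, h2⟩ | ⟨h1, h2⟩ | ⟨h1, h2⟩ | ⟨h1, h2⟩ | ⟨h1, h2⟩ | ⟨h1, h2⟩ | ⟨h1, h2⟩ | ⟨h1, h2⟩ | ⟨h1, h2⟩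
  · have := ub0_ok (N - 5) (by omega)
    rw [show N - 5 + 5 = N by omega] at this
    exact key _ this
  · have := ub1_ok (N - 164) (by omega)
    rw [show N - 164 + 164 = N by omega] at this
    exact key _ this
  · have := ub2_ok (N - 323) (by omega)
    rw [show N - 323 + 323 = N by omega] at this
    exact key _ this
  · have := ub3_ok (N - 482) (by omega)
    rw [show N - 482 + 482 = N by omega] at this
    exact key _ this
  · have := ub4_ok (N - 641) (by omega)
    rw [show N - 641 + 641 = N by omega] at this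
    exact key _ this
  · have := ub5_ok (N - 800) (by omega)
    rw [show N - 800 + 800 = N by omega] at this
    exact key _ this
  · have := ub6_ok (N - 959) (by omega)
    rw [show N - 959 + 959 = N by omega] at this
    exact key _ this
  · have := ub7_ok (N - 1118) (by omega)
    rw [show N - 1118 + 1118 = N by omega] at this
    exact key _ this
  · have := ub8_ok (N - 1277) (by omega)
    rw [show N - 1277 + 1277 = N by omega] at this
    exact key _ this

end ZS44129
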