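import Mathlib
import Pool.Agent.Work.MP_44129c_co.MF.Range
import Pool.Agent.Work.MP_44129c_co.MF.Table2

/-!
# MP_44129c_co/MF, module Range2 (helper8): the positive side (part (6)), strong form
-/

set_option autoImplicit false

namespace ZS44129

open Finset

/-- Let `4 s + 1 ≤ N`.  If there is no colouring `MFs N s` then `N ≤ 4 s + 2`, or `(N, s)` is one of
five pairs, or `80 ≤ s` and `19 (N - 1 - 4 s) ≤ s`. -/
theorem mf_range2 {N s : ℕ} (h : 4 * s + 1 ≤ N) (hn : ¬ MFs N s) :
    N ≤ 4 * s + 2 ∨ (N = 155 ∧ s = 38) ∨ (N = 171 ∧ s = 42) ∨ (187 ≤ N ∧ N ≤ 189 ∧ s = 46) ∨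
      (80 ≤ s ∧ 19 * (N - 1 - 4 * s) ≤ s) := by
  rcases Nat.lt_or_ge N 5 with h5 | h5
  · exfalso
    have : s = 0 := by omega
    subst this
    exact hn (mfs_zero _)
  rcases Nat.lt_or_ge N 1436 with h6 | h6
  · obtain ⟨F, hF, hok⟩ := table2 h5 h6
    have hs : F < s := by
      by_contra hc
      exact hn (mfs_mono hF (by omega))
    unfold okG at hok
    simp only [Bool.and_eq_true, Bool.or_eq_true, decide_eq_true_eq] at hok
    rcases hok.1 with (((h7 | ⟨h7, h8⟩) | ⟨h7, h8⟩) | ⟨h7, h8⟩) | ⟨⟨h7, h8⟩, h9⟩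
    · left; omega
    · right; right; right; right; omega
    · rcases Nat.lt_or_ge s 39 with h10 | h10
      · right; left; omega
      · left; omega
    · rcases Nat.lt_or_ge s 43 with h10 | h10
      · right; right; left; omega
      · left; omega
    · rcases Nat.lt_or_ge s 47 with h10 | h10
      · right; right; right; left; omega
      · left; omega
  · have ha : 2 ≤ N / 718 := by omega
    obtain ⟨a, haa⟩ : ∃ a, a = N / 718 := ⟨_, rfl⟩
    rw [← haa] at ha
    have hdiv := Nat.div_add_mod N 718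
    have hmod := Nat.mod_lt N (show 718 > 0 by norm_num)
    rw [← haa] at hdiv
    obtain ⟨N0, hN0⟩ : ∃ N0, N0 = N / a := ⟨_, rfl⟩
    have hdiv2 := Nat.div_add_mod N a
    have hmod2 := Nat.mod_lt N (show a > 0 by omega)
    rw [← hN0] at hdiv2
    have h718 : 718 ≤ N0 := by
      rw [hN0, Nat.le_div_iff_mul_le (by omega)]
      omega
    have h1077 : N0 < 1077 := by
      rw [hN0, Nat.div_lt_iff_lt_mul (by omega)]
      omega
    obtain ⟨F, hF, hok⟩ := table2 (by omega) (show N0 < 1436 by omega)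
    unfold okG at hok
    simp only [Bool.and_eq_true, Bool.or_eq_true, decide_eq_true_eq] at hok
    have hwin : 19 * (N0 + 1 - 4 * F) ≤ F := by
      rcases hok.2 with (h7 | h7) | h7
      · omega
      · omega
      · exact h7
    have h8 : MFs N (a * F) := by
      have h9 := mfs_twins (r := N % a) (show 2 ≤ a * N0 by nlinarith) (mfs_blow a (by omega) hF)
      rw [hdiv2] at h9
      exact h9
    have hs : a * F < s := by
      by_contra hc
      exact hn (mfs_mono h8 (by omega))
    have hF177 : 170 ≤ F := by omega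
    right; right; right; right
    refine ⟨by nlinarith, ?_⟩
    rcases Nat.lt_or_ge (4 * F) (N0 + 1) with h10 | h10
    · obtain ⟨k, hk⟩ : ∃ k, N0 + 1 = 4 * F + k := ⟨N0 + 1 - 4 * F, by omega⟩
      have h11 : 19 * k ≤ F := by
        have : N0 + 1 - 4 * F = k := by omega
        rw [this] at hwin
        exact hwin
      have h12 : a * N0 + a = 4 * (a * F) + a * k := by
        have : a * N0 + a = a * (N0 + 1) := by ring
        rw [this, hk]; ring
      have h13 : 19 * (a * k) ≤ a * F := by nlinarith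
      omega
    · have h12 : a * N0 + a ≤ 4 * (a * F) := by nlinarith
      omega

/-- Final form of part (6).  Either there is a 2-colouring without monochromatic `m`-edge double
star on `N = m + s` vertices, or `N ≤ 4 s + 2`, or `(N, s)` is one of five pairs, or `80 ≤ s`,
`4 s + 3 ≤ N` and `19 (N - 1 - 4 s) ≤ s`. -/
theorem mf_pos2 {N m s : ℕ} (hN : m + s = N)
    (hno : ¬ ∃ b : Fin N → Fin N → Bool, (∀ x y, b x y = b y x) ∧ MF m b) :
    N ≤ 4 * s + 2 ∨ (N = 155 ∧ s = 38) ∨ (N = 171 ∧ s = 42) ∨ (187 ≤ N ∧ N ≤ 189 ∧ s = 46) ∨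
      (80 ≤ s ∧ 4 * s + 3 ≤ N ∧ 19 * (N - 1 - 4 * s) ≤ s) := by
  by_cases h1 : N ≤ 4 * s + 2
  · exact Or.inl h1
  have hn : ¬ MFs N s := fun h => hno (mf_of_mfs hN h)
  rcases mf_range2 (by omega) hn with h | h | h | h | h
  · exact absurd h h1
  · exact Or.inr (Or.inl h)
  · exact Or.inr (Or.inr (Or.inl h))
  · exact Or.inr (Or.inr (Or.inr (Or.inl h)))
  · exact Or.inr (Or.inr (Or.inr (Or.inr ⟨h.1, by omega, h.2⟩)))

end ZS44129
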