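import Mathlib
import Pool.Agent.Work.MP_44129c_co.MF.Range

/-!
# MP_44129c_co/MF, module Pos (helper8): final form of part (6)
-/

set_option autoImplicit false

namespace ZS44129

/-- Either there is a 2-colouring without monochromatic `m`-edge double star on `N = m + s`
vertices, or `N ≤ 4 s`, or `N = 4 s + 1, 4 s + 2`, or `23 ≤ s`, `4 s + 3 ≤ N` and
`29 (N - 1 - 4 s) ≤ 3 s`. -/
theorem mf_pos {N m s : ℕ} (hN : m + s = N)
    (hno : ¬ ∃ b : Fin N → Fin N → Bool, (∀ x y, b x y = b y x) ∧ MF m b) :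
    N ≤ 4 * s + 2 ∨ (23 ≤ s ∧ 4 * s + 3 ≤ N ∧ 29 * (N - 1 - 4 * s) ≤ 3 * s) := by
  by_cases h1 : N ≤ 4 * s + 2
  · exact Or.inl h1
  right
  have hn : ¬ MFs N s := fun h => hno (mf_of_mfs hN h)
  rcases mf_range (by omega) hn with h | h
  · exact absurd h h1
  · exact ⟨h.1, by omega, h.2⟩

end ZS44129
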